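import Pool.Agent.R896.MB.Defs
import Pool.Agent.R896.DC.Tool

set_option autoImplicit false

namespace Pool.Agent.R896.MB

open Finset Filter
open Pool.Agent.R896.DC (wt Ex Pr)

lemma step_mono (k : ℕ) {n : ℕ} {A A' : Finset (Vx n)} (h : A ⊆ A') : step k A ⊆ step k A' := by
  intro v hv
  unfold step at hv ⊢
  rw [mem_union] at hv ⊢
  rcases hv with hv | hv
  · exact Or.inl (h hv)
  · right
    rw [mem_filter] at hv ⊢
    refine ⟨mem_univ _, hv.2.trans ?_⟩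
    have : (nb k v ∩ A).card ≤ (nb k v ∩ A').card :=
      card_le_card (inter_subset_inter_left h)
    omega

lemma iter_mono (k : ℕ) {n : ℕ} (i : ℕ) : ∀ {A A' : Finset (Vx n)}, A ⊆ A' →
    (step k)^[i] A ⊆ (step k)^[i] A' := by
  induction i with
  | zero => intro A A' h; simpa using h
  | succ i ih =>
    intro A A' h
    rw [Function.iterate_succ_apply, Function.iterate_succ_apply]
    exact ih (step_mono k h)

lemma perc_mono (k : ℕ) {n : ℕ} (ω ω' : Vx n → Bool) (h : Perc k ω)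
    (hle : ∀ i, ω i = true → ω' i = true) : Perc k ω' := by
  obtain ⟨i, hi⟩ := h
  refine ⟨i, ?_⟩
  have hs : A0 ω ⊆ A0 ω' := by
    intro v hv
    unfold A0 at hv ⊢
    rw [mem_filter] at hv ⊢
    exact ⟨mem_univ _, hle v hv.2⟩
  have := iter_mono k i hs
  rw [hi] at this
  exact univ_subset_iff.1 this

lemma ep_eq (c : ℝ) (k n : ℕ) :
    ep c k n = c * (Real.sqrt (Real.log n) / (n : ℝ) ^ ((k : ℝ) / 2)) := by
  unfold ep
  rw [Real.sqrt_div' _ (by positivity)]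
  congr 2
  rw [Real.sqrt_eq_rpow, ← Real.rpow_natCast, ← Real.rpow_mul (by positivity)]
  congr 1
  ring

theorem assemble (k : ℕ) (hM : StmtMono) (hL : StmtLo k) (hU : StmtUp k) :
    ∃ c C : ℝ, 0 < c ∧ c ≤ C ∧ ∃ n0 : ℕ, ∀ n : ℕ, n0 ≤ n →
      1 / 2 - C * (Real.sqrt (Real.log n) / (n : ℝ) ^ ((k : ℝ) / 2)) ≤ pc k n ∧
      pc k n ≤ 1 / 2 - c * (Real.sqrt (Real.log n) / (n : ℝ) ^ ((k : ℝ) / 2)) := by
  obtain ⟨C, hC, n1, h1⟩ := hL
  obtain ⟨c, hc, n2, h2⟩ := hU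
  have key : ∀ n : ℕ, max n1 n2 ≤ n → 1 / 2 - ep C k n ≤ pc k n ∧ pc k n ≤ 1 / 2 - ep c k n := by
    intro n hn
    obtain ⟨a1, a2⟩ := h1 n (le_trans (le_max_left _ _) hn)
    obtain ⟨b1, b2⟩ := h2 n (le_trans (le_max_right _ _) hn)
    have hepC : 0 ≤ ep C k n := by unfold ep; positivity
    have hmem : (1 / 2 - ep C k n) ∈
        {p : ℝ | 0 < p ∧ p < 1 ∧ Pr (fun _ : Vx n => p) {ω | Perc k ω} ≤ 1 / 2} :=
      ⟨a1, by linarith, a2⟩
    refine ⟨le_csSup ⟨1, fun p hp => hp.2.1.le⟩ hmem, csSup_le ⟨_, hmem⟩ ?_⟩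
    rintro p ⟨p0, p1, p2⟩
    by_contra hlt
    push Not at hlt
    have := hM (Vx n) (1 / 2 - ep c k n) p b1.le hlt.le p1.le {ω | Perc k ω}
      (fun ω ω' hω hle => perc_mono k ω ω' hω hle)
    linarith
  refine ⟨c, max c C, hc, le_max_left _ _, max (max n1 n2) 1, fun n hn => ?_⟩
  obtain ⟨k1, k2⟩ := key n (le_trans (le_max_left _ _) hn)
  rw [ep_eq] at k1 k2
  refine ⟨le_trans ?_ k1, k2⟩
  have h3 : 0 ≤ Real.sqrt (Real.log n) / (n : ℝ) ^ ((k : ℝ) / 2) := by positivity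
  have h4 : C * (Real.sqrt (Real.log n) / (n : ℝ) ^ ((k : ℝ) / 2)) ≤
      max c C * (Real.sqrt (Real.log n) / (n : ℝ) ^ ((k : ℝ) / 2)) :=
    mul_le_mul_of_nonneg_right (le_max_right _ _) h3
  linarith

end Pool.Agent.R896.MB
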