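import Pool.Agent.R896.MB.Defs
import Pool.Agent.R896.DC.Tool

/-! MB-BIN: moderate deviation lower bound by amplification of blocks. -/

set_option autoImplicit false

namespace Pool.Agent.R896.MB

open Finset Filter
open Pool.Agent.R896.DC

namespace BinAux

variable {I : Type} [DecidableEq I]

/-- Disjoint blocks. -/
lemma blocks (s : ℕ) : ∀ (L : ℕ) (O : Finset I), L * s ≤ O.card →
    ∃ B : ℕ → Finset I, (∀ j ∈ range L, B j ⊆ O ∧ (B j).card = s) ∧
      ∀ i ∈ range L, ∀ j ∈ range L, i ≠ j → Disjoint (B i) (B j)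
  | 0, O, _ => ⟨fun _ => ∅, by simp, by simp⟩
  | L + 1, O, h => by
    have hs : s ≤ O.card := by
      have : (L + 1) * s = L * s + s := by ring
      omega
    obtain ⟨C, hC, hCs⟩ := exists_subset_card_eq hs
    have h2 : L * s ≤ (O \ C).card := by
      rw [card_sdiff_of_subset hC, hCs]
      have : (L + 1) * s = L * s + s := by ring
      omega
    obtain ⟨B, hB1, hB2⟩ := blocks s L (O \ C) h2
    refine ⟨fun j => if j = L then C else B j, ?_, ?_⟩
    · intro j hj
      by_cases hjL : j = L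
      · simp only [hjL, if_true]
        exact ⟨hC, hCs⟩
      · have hj' : j ∈ range L := by
          rw [mem_range] at hj ⊢
          omega
        simp only [hjL, if_false]
        exact ⟨(hB1 j hj').1.trans sdiff_subset, (hB1 j hj').2⟩
    · intro i hi j hj hij
      have hr : ∀ k ∈ range (L + 1), k ≠ L → k ∈ range L := by
        intro k hk hkL
        rw [mem_range] at hk ⊢
        omega
      have hd : ∀ k ∈ range L, Disjoint (B k) C := by
        intro k hk
        exact disjoint_of_subset_left (hB1 k hk).1 sdiff_disjoint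
      by_cases hiL : i = L
      · by_cases hjL : j = L
        · exact absurd (hiL.trans hjL.symm) hij
        · simp only [hiL, hjL, if_true, if_false]
          exact (hd j (hr j hj hjL)).symm
      · by_cases hjL : j = L
        · simp only [hiL, hjL, if_true, if_false]
          exact hd i (hr i hi hiL)
        · simp only [hiL, hjL, if_false]
          exact hB2 i (hr i hi hiL) j (hr j hj hjL) hij

/-- The sum over `O` from the sums over the blocks. -/
lemma sum_ge (p : ℝ) (hp : p ≤ 1) (ω : I → Bool) (O : Finset I) (B : ℕ → Finset I) (L s : ℕ)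
    (t : ℝ) (h1 : ∀ j ∈ range L, B j ⊆ O ∧ (B j).card = s)
    (h2 : ∀ i ∈ range L, ∀ j ∈ range L, i ≠ j → Disjoint (B i) (B j))
    (h3 : O.card ≤ L * s + L)
    (h4 : ∀ j ∈ range L, t ≤ ∑ x ∈ B j, (b ω x - p)) :
    L * t - L ≤ ∑ x ∈ O, (b ω x - p) := by
  set U := (range L).biUnion B with hU
  have hUO : U ⊆ O := by
    rw [hU, biUnion_subset]
    exact fun j hj => (h1 j hj).1
  have hUc : U.card = L * s := by
    rw [hU, card_biUnion h2, sum_congr rfl (fun j hj => (h1 j hj).2)]
    simp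
  have hR : ((O \ U).card : ℝ) ≤ L := by
    have : (O \ U).card ≤ L := by
      rw [card_sdiff_of_subset hUO, hUc]
      omega
    exact_mod_cast this
  rw [← sum_sdiff hUO]
  have e1 : ∑ x ∈ U, (b ω x - p) = ∑ j ∈ range L, ∑ x ∈ B j, (b ω x - p) := by
    rw [hU, sum_biUnion]
    intro i hi j hj hij
    exact h2 i hi j hj hij
  have e2 : (L : ℝ) * t ≤ ∑ x ∈ U, (b ω x - p) := by
    rw [e1]
    have := card_nsmul_le_sum (range L) (fun j => ∑ x ∈ B j, (b ω x - p)) t h4
    simpa using this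
  have e3 : -((O \ U).card : ℝ) ≤ ∑ x ∈ O \ U, (b ω x - p) := by
    have := card_nsmul_le_sum (O \ U) (fun x => b ω x - p) (-1) (fun x _ => by
      have : 0 ≤ b ω x := by
        unfold b
        split_ifs <;> norm_num
      linarith)
    simpa using this
  linarith

end BinAux

open BinAux in
/-- MB-BIN. -/
theorem bin (h : StmtBlk) : StmtBin := by
  classical
  intro δ hδ
  have hl50 : 0 < Real.log 50 := Real.log_pos (by norm_num)
  set η : ℝ := δ / (2 * Real.log 50) with hη
  have hη0 : 0 < η := by positivity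
  set c : ℝ := min (η / (576 * (η + 1) ^ 2)) (1 / (64 * (η + 1))) with hc
  have hc0 : 0 < c := by
    rw [hc]
    exact lt_min (by positivity) (by positivity)
  have ev1 : ∀ᶠ M : ℕ in atTop, ‖Real.log (M : ℝ)‖ ≤ c * ‖(M : ℝ)‖ :=
    (tendsto_natCast_atTop_atTop (R := ℝ)).eventually (Real.isLittleO_log_id_atTop.def hc0)
  have ev2 : ∀ᶠ M : ℕ in atTop, max 1 (2 * Real.log 50 / δ) ≤ Real.log (M : ℝ) :=
    (Real.tendsto_log_atTop.comp (tendsto_natCast_atTop_atTop (R := ℝ))).eventually_ge_atTop _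
  obtain ⟨M0, hM0⟩ := eventually_atTop.1 ((ev1.and ev2).and (eventually_ge_atTop 2))
  refine ⟨Real.sqrt η / 40, by positivity, M0, ?_⟩
  intro I _ _ p hp1 hp2 O hO D hD
  have hp01 : ∀ i : I, 0 ≤ (fun _ : I => p) i ∧ (fun _ : I => p) i ≤ 1 :=
    fun _ => ⟨by linarith, by linarith⟩
  obtain ⟨⟨hA, hB⟩, hM2⟩ := hM0 O.card hO
  set M : ℕ := O.card with hM
  set x : ℝ := Real.log M with hx
  have hMr : (0 : ℝ) < M := by exact_mod_cast (by omega : 0 < M)
  have hx1 : 1 ≤ x := (le_max_left _ _).trans hB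
  have hx2 : 2 * Real.log 50 / δ ≤ x := (le_max_right _ _).trans hB
  have hxM : x ≤ c * M := by
    rw [Real.norm_of_nonneg (by linarith), Real.norm_of_nonneg hMr.le] at hA
    exact hA
  set L : ℕ := ⌈η * x⌉₊ with hL
  have hL1 : η * x ≤ L := Nat.le_ceil _
  have hL2 : (L : ℝ) ≤ (η + 1) * x := by
    have : (L : ℝ) < η * x + 1 := Nat.ceil_lt_add_one (by positivity)
    nlinarith
  have hL0 : 0 < L := by
    rw [hL]
    exact Nat.ceil_pos.2 (by positivity)
  have hLr : (0 : ℝ) < L := by exact_mod_cast hL0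
  have hL64 : 64 * (L : ℝ) ≤ M := by
    have h1 : c ≤ 1 / (64 * (η + 1)) := min_le_right _ _
    have h2 : x ≤ 1 / (64 * (η + 1)) * M := hxM.trans (mul_le_mul_of_nonneg_right h1 hMr.le)
    have h3 : 64 * ((η + 1) * x) ≤ M := by
      have h4 : 64 * (η + 1) * x ≤ 64 * (η + 1) * (1 / (64 * (η + 1)) * M) :=
        mul_le_mul_of_nonneg_left h2 (by positivity)
      have h5 : 64 * (η + 1) * (1 / (64 * (η + 1)) * M) = M := by field_simp
      linarith
    linarith
  have hL64' : 64 * L ≤ M := by exact_mod_cast hL64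
  set s : ℕ := M / L with hs
  have hs64 : 64 ≤ s := by
    rw [hs, Nat.le_div_iff_mul_le hL0]
    exact hL64'
  have hsL : L * s ≤ M := Nat.mul_div_le M L
  have hsL2 : M ≤ L * s + L := by
    have := Nat.lt_mul_div_succ M hL0
    have h2 : L * (M / L + 1) = L * s + L := by rw [hs]; ring
    omega
  have hs0 : (0 : ℝ) < s := by exact_mod_cast (by omega : 0 < s)
  have hsM : (M : ℝ) ≤ 2 * L * s := by
    have h1 : (M : ℝ) ≤ L * s + L := by exact_mod_cast hsL2
    have h2 : (1 : ℝ) ≤ s := by exact_mod_cast (by omega : 1 ≤ s)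
    nlinarith
  obtain ⟨B, hB1, hB2⟩ := blocks s L O hsL
  set S : ℝ := Real.sqrt (M * x) with hS
  have hS0 : 0 ≤ S := Real.sqrt_nonneg _
  have hSsq : S ^ 2 = M * x := Real.sq_sqrt (by positivity)
  have hηsq : Real.sqrt η ^ 2 = η := Real.sq_sqrt hη0.le
  have hssq : Real.sqrt s ^ 2 = s := Real.sq_sqrt hs0.le
  -- block sums
  have k1 : Real.sqrt η * S / 15 ≤ L * (Real.sqrt s / 10) := by
    rw [← pow_le_pow_iff_left₀ (by positivity) (by positivity) (two_ne_zero)]
    have e1 : (Real.sqrt η * S / 15) ^ 2 = η * (M * x) / 225 := by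
      rw [div_pow, mul_pow, hηsq, hSsq]; norm_num
    have e2 : (L * (Real.sqrt s / 10)) ^ 2 = (L : ℝ) ^ 2 * s / 100 := by
      rw [mul_pow, div_pow, hssq]; ring
    rw [e1, e2]
    have e3 : (L : ℝ) * M ≤ L * (2 * L * s) := mul_le_mul_of_nonneg_left hsM hLr.le
    have e4 : η * x * M ≤ L * M := mul_le_mul_of_nonneg_right hL1 hMr.le
    have e5 : 0 ≤ η * (M * x) := by positivity
    have e6 : (L : ℝ) * (2 * L * s) = 2 * (L ^ 2 * s) := by ring
    have e7 : η * x * M = η * (M * x) := by ring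
    linarith
  have k2 : (L : ℝ) ≤ Real.sqrt η * S / 24 := by
    refine hL2.trans ?_
    rw [← pow_le_pow_iff_left₀ (by positivity) (by positivity) (two_ne_zero)]
    have e1 : (Real.sqrt η * S / 24) ^ 2 = η * (M * x) / 576 := by
      rw [div_pow, mul_pow, hηsq, hSsq]; norm_num
    rw [e1]
    have h1 : c ≤ η / (576 * (η + 1) ^ 2) := min_le_left _ _
    have h2 : x ≤ η / (576 * (η + 1) ^ 2) * M :=
      hxM.trans (mul_le_mul_of_nonneg_right h1 hMr.le)
    calc ((η + 1) * x) ^ 2 = (η + 1) ^ 2 * x * x := by ring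
      _ ≤ (η + 1) ^ 2 * x * (η / (576 * (η + 1) ^ 2) * M) :=
        mul_le_mul_of_nonneg_left h2 (by positivity)
      _ = η * (M * x) / 576 := by
        field_simp
  have k3 : D ≤ L * (Real.sqrt s / 10) - L := by
    have hD' : D ≤ Real.sqrt η / 40 * S := hD
    have : Real.sqrt η / 40 * S = Real.sqrt η * S / 15 - Real.sqrt η * S / 24 := by ring
    linarith
  have hsub : {ω : I → Bool | ∀ j ∈ range L, Real.sqrt s / 10 ≤ ∑ x ∈ B j, (b ω x - p)}
      ⊆ {ω : I → Bool | D ≤ ∑ x ∈ O, (b ω x - p)} := by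
    intro ω hω
    exact k3.trans (sum_ge p (by linarith) ω O B L s _ hB1 hB2 hsL2 hω)
  refine le_trans ?_ (Pr_mono hp01 hsub)
  rw [Pr_ind (fun _ => p) (range L) (fun j => (B j : Set I))
    (fun j ω => Real.sqrt s / 10 ≤ ∑ x ∈ B j, (b ω x - p)) ?_ ?_]
  · have hblk : ∀ j ∈ range L, (1 : ℝ) / 50 ≤ Pr (fun _ : I => p)
        {ω | Real.sqrt s / 10 ≤ ∑ x ∈ B j, (b ω x - p)} := by
      intro j hj
      have h1 := h I p hp1 hp2 (B j) (by rw [(hB1 j hj).2]; exact hs64)
      rw [(hB1 j hj).2] at h1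
      exact h1
    have hprod : ((1 : ℝ) / 50) ^ L ≤ ∏ j ∈ range L, Pr (fun _ : I => p)
        {ω | Real.sqrt s / 10 ≤ ∑ x ∈ B j, (b ω x - p)} := by
      have := prod_le_prod (s := range L) (f := fun _ => (1 : ℝ) / 50)
        (g := fun j => Pr (fun _ : I => p) {ω | Real.sqrt s / 10 ≤ ∑ x ∈ B j, (b ω x - p)})
        (fun j _ => by norm_num) hblk
      simpa using this
    refine le_trans ?_ hprod
    have e1 : (M : ℝ) ^ (-δ) = Real.exp (-(δ * x)) := by
      rw [Real.rpow_def_of_pos hMr]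
      congr 1
      rw [hx]; ring
    have e2 : ((1 : ℝ) / 50) ^ L = Real.exp (-(L * Real.log 50)) := by
      rw [Real.exp_neg, Real.exp_nat_mul, Real.exp_log (by norm_num)]
      rw [one_div, inv_pow]
    rw [e1, e2, Real.exp_le_exp, neg_le_neg_iff]
    have e3 : (L : ℝ) < η * x + 1 := Nat.ceil_lt_add_one (by positivity)
    have e4 : η * x * Real.log 50 = δ * x / 2 := by
      rw [hη]; field_simp
    have e5 : Real.log 50 ≤ δ * x / 2 := by
      rw [div_le_iff₀ hδ] at hx2
      linarith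
    calc (L : ℝ) * Real.log 50 ≤ (η * x + 1) * Real.log 50 :=
          mul_le_mul_of_nonneg_right e3.le hl50.le
      _ = η * x * Real.log 50 + Real.log 50 := by ring
      _ ≤ δ * x := by rw [e4]; linarith
  · intro j hj ω ω' hωω'
    have : ∑ x ∈ B j, (b ω x - p) = ∑ x ∈ B j, (b ω' x - p) := by
      refine sum_congr rfl fun y hy => ?_
      unfold b
      rw [hωω' y hy]
    show (Real.sqrt s / 10 ≤ ∑ x ∈ B j, (b ω x - p)) = (Real.sqrt s / 10 ≤ ∑ x ∈ B j, (b ω' x - p))
    rw [this]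
  · intro i hi j hj hij
    exact disjoint_coe.2 (hB2 i hi j hj hij)

end Pool.Agent.R896.MB
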