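import Pool.Agent.R896.MB.Defs
import Pool.Agent.R896.DC.Tool

/-! MB-BLK (MP_b06f47_pr): one block. -/

set_option autoImplicit false

namespace Pool.Agent.R896.MB

open Finset
open Pool.Agent.R896.DC

namespace BlkAux

set_option linter.unusedSectionVars false

variable {I : Type} [Fintype I] [DecidableEq I]

/-- the centred sum -/
noncomputable def Z (p : ℝ) (B : Finset I) (ω : I → Bool) : ℝ := ∑ x ∈ B, (b ω x - p)

lemma Z_dep (p : ℝ) (B : Finset I) : DependsOn (Z p B) (B : Set I) := by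
  intro ω ω' h
  unfold Z
  apply sum_congr rfl
  intro x hx
  unfold b
  rw [h x hx]

lemma Z_insert (p : ℝ) {B : Finset I} {x : I} (hx : x ∉ B) (ω : I → Bool) :
    Z p (insert x B) ω = Z p B ω + (b ω x - p) := by
  unfold Z
  rw [sum_insert hx, add_comm]

lemma Ex_single (p : ℝ) (x : I) (k : ℕ) :
    Ex (fun _ => p) (fun ω : I → Bool => (b ω x - p) ^ k) =
      p * (1 - p) ^ k + (1 - p) * (-p) ^ k := by
  have h := Ex_bit (fun _ : I => p) x (fun c => ((if c = true then (1 : ℝ) else 0) - p) ^ k)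
  unfold b
  rw [h]
  simp

lemma Ex_mixed (p : ℝ) {B : Finset I} {x : I} (hx : x ∉ B) (j k : ℕ) :
    Ex (fun _ => p) (fun ω : I → Bool => Z p B ω ^ j * (b ω x - p) ^ k) =
      Ex (fun _ => p) (fun ω : I → Bool => Z p B ω ^ j) * (p * (1 - p) ^ k + (1 - p) * (-p) ^ k) := by
  rw [← Ex_single p x k]
  apply Ex_ind2 (fun _ => p) (B : Set I) ({x} : Set I)
  · intro ω ω' h
    show Z p B ω ^ j = Z p B ω' ^ j
    rw [Z_dep p B h]
  · intro ω ω' h
    show (b ω x - p) ^ k = (b ω' x - p) ^ k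
    unfold b
    rw [h x rfl]
  · rw [Set.disjoint_singleton_right]
    exact hx

lemma moments {p : ℝ} (h0 : 0 ≤ p) (h1 : p ≤ 1) (B : Finset I) :
    Ex (fun _ => p) (fun ω : I → Bool => Z p B ω ^ 1) = 0 ∧
    Ex (fun _ => p) (fun ω : I → Bool => Z p B ω ^ 2) = B.card * (p * (1 - p)) ∧
    Ex (fun _ => p) (fun ω : I → Bool => Z p B ω ^ 4) ≤
      3 * (B.card * (p * (1 - p))) ^ 2 + B.card * (p * (1 - p)) := by
  have hp : ∀ i : I, 0 ≤ (fun _ : I => p) i ∧ (fun _ : I => p) i ≤ 1 := fun _ => ⟨h0, h1⟩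
  induction B using Finset.induction_on with
  | empty =>
    have hz : ∀ ω : I → Bool, Z p ∅ ω = 0 := fun ω => by unfold Z; simp
    simp only [hz]
    norm_num
    rw [Ex_const]
    simp
  | insert x B hx ih =>
    obtain ⟨i1, i2, i4⟩ := ih
    have e1 : (fun ω : I → Bool => Z p (insert x B) ω ^ 1) =
        fun ω => Z p B ω ^ 1 + Z p B ω ^ 0 * (b ω x - p) ^ 1 := by
      funext ω
      rw [Z_insert p hx]
      ring
    have e2 : (fun ω : I → Bool => Z p (insert x B) ω ^ 2) =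
        fun ω => (Z p B ω ^ 2 + 2 * (Z p B ω ^ 1 * (b ω x - p) ^ 1)) +
          Z p B ω ^ 0 * (b ω x - p) ^ 2 := by
      funext ω
      rw [Z_insert p hx]
      ring
    have e4 : (fun ω : I → Bool => Z p (insert x B) ω ^ 4) =
        fun ω => (((Z p B ω ^ 4 + 4 * (Z p B ω ^ 3 * (b ω x - p) ^ 1)) +
          6 * (Z p B ω ^ 2 * (b ω x - p) ^ 2)) + 4 * (Z p B ω ^ 1 * (b ω x - p) ^ 3)) +
          Z p B ω ^ 0 * (b ω x - p) ^ 4 := by
      funext ω
      rw [Z_insert p hx]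
      ring
    have hz0 : Ex (fun _ => p) (fun ω : I → Bool => Z p B ω ^ 0) = 1 := by
      simp only [pow_zero]
      exact Ex_const _ 1
    refine ⟨?_, ?_, ?_⟩
    · rw [e1, Ex_add, Ex_mixed p hx, i1, hz0]
      ring
    · rw [e2, Ex_add, Ex_add, Ex_mul_left, Ex_mixed p hx, Ex_mixed p hx, i1, i2, hz0,
        card_insert_of_notMem hx]
      push_cast
      ring
    · rw [e4, Ex_add, Ex_add, Ex_add, Ex_add, Ex_mul_left, Ex_mul_left, Ex_mul_left,
        Ex_mixed p hx, Ex_mixed p hx, Ex_mixed p hx, Ex_mixed p hx, i1, i2, hz0,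
        card_insert_of_notMem hx]
      push_cast
      set s : ℝ := (B.card : ℝ)
      have hq : 0 ≤ 1 - p := by linarith
      have h4 : p * (1 - p) ^ 4 + (1 - p) * (-p) ^ 4 ≤ p * (1 - p) := by
        have h5 : (1 - p) ^ 3 + p ^ 3 ≤ 1 := by nlinarith [mul_nonneg h0 hq]
        have h6 : p * (1 - p) ^ 4 + (1 - p) * (-p) ^ 4 = (p * (1 - p)) * ((1 - p) ^ 3 + p ^ 3) := by
          ring
        rw [h6]
        exact mul_le_of_le_one_right (mul_nonneg h0 hq) h5
      have h7 : 0 ≤ (p * (1 - p)) ^ 2 := sq_nonneg _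
      nlinarith [h4, i4, h7]

end BlkAux

open BlkAux

theorem blk : StmtBlk := by
  intro I _ _ p hp1 hp2 B hB
  have h0 : (0 : ℝ) ≤ p := by linarith
  have h1 : p ≤ 1 := by linarith
  have hp : ∀ i : I, 0 ≤ (fun _ : I => p) i ∧ (fun _ : I => p) i ≤ 1 := fun _ => ⟨h0, h1⟩
  obtain ⟨m1, m2, m4⟩ := moments h0 h1 B
  have hs : (64 : ℝ) ≤ B.card := by exact_mod_cast hB
  have hv : 3 / 16 ≤ p * (1 - p) := by nlinarith
  set σ2 : ℝ := (B.card : ℝ) * (p * (1 - p)) with hσ2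
  have hσ12 : 12 ≤ σ2 := by
    rw [hσ2]
    nlinarith
  set σ := Real.sqrt σ2 with hσ
  have hσsq : σ ^ 2 = σ2 := Real.sq_sqrt (by linarith)
  have hσ0 : 0 < σ := Real.sqrt_pos.mpr (by linarith)
  -- the polynomial
  set q : ℝ → ℝ := fun z => -z ^ 4 + (177 / 16) * σ ^ 2 * z ^ 2 + (49 / 4) * σ ^ 3 * z ^ 1 -
    15 / 4 * σ ^ 4 with hq
  have hqf : ∀ z, q z = (z - σ / 4) * (15 / 4 * σ - z) * (z + 2 * σ) ^ 2 := by
    intro z
    rw [hq]
    ring
  have hEq : 4.2 * σ ^ 4 ≤ Ex (fun _ => p) (fun ω : I → Bool => q (Z p B ω)) := by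
    have e : (fun ω : I → Bool => q (Z p B ω)) = fun ω =>
        ((-1) * Z p B ω ^ 4 + (177 / 16) * σ ^ 2 * Z p B ω ^ 2) +
          ((49 / 4) * σ ^ 3 * Z p B ω ^ 1 + (- (15 / 4 * σ ^ 4))) := by
      funext ω
      rw [hq]
      ring
    rw [e, Ex_add, Ex_add, Ex_add, Ex_mul_left, Ex_mul_left, Ex_mul_left, Ex_const, m1, m2]
    have h4 : σ ^ 4 = σ2 ^ 2 := by rw [← hσsq]; ring
    rw [h4, hσsq]
    nlinarith
  -- pointwise bound
  have hpt : ∀ z, q z ≤ 102 * σ ^ 4 * (if Real.sqrt B.card / 10 ≤ z then 1 else 0) := by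
    intro z
    have hthr : Real.sqrt B.card / 10 ≤ σ / 4 := by
      have h5 : Real.sqrt B.card * (2 / 5) ≤ σ := by
        have h6 : (2 / 5 : ℝ) = Real.sqrt (4 / 25) := by
          rw [show (4 / 25 : ℝ) = (2 / 5) ^ 2 by norm_num, Real.sqrt_sq (by norm_num)]
        rw [h6, ← Real.sqrt_mul (Nat.cast_nonneg _), hσ]
        apply Real.sqrt_le_sqrt
        rw [hσ2]
        apply mul_le_mul_of_nonneg_left _ (by linarith)
        linarith
      linarith
    rw [hqf]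
    rcases lt_or_ge z (σ / 4) with hz | hz
    · have h6 : (z - σ / 4) * (15 / 4 * σ - z) ≤ 0 :=
        mul_nonpos_of_nonpos_of_nonneg (by linarith) (by linarith)
      have h7 : (z - σ / 4) * (15 / 4 * σ - z) * (z + 2 * σ) ^ 2 ≤ 0 :=
        mul_nonpos_of_nonpos_of_nonneg h6 (sq_nonneg _)
      refine h7.trans ?_
      split_ifs <;> positivity
    · rw [if_pos (hthr.trans hz), mul_one]
      rcases le_or_gt z (15 / 4 * σ) with hz2 | hz2
      · have h6 : (z - σ / 4) * (15 / 4 * σ - z) ≤ 49 / 16 * σ ^ 2 := by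
          nlinarith [sq_nonneg (z - 2 * σ)]
        have h7 : (z + 2 * σ) ^ 2 ≤ (23 / 4 * σ) ^ 2 := by
          apply pow_le_pow_left₀ (by linarith)
          linarith
        calc (z - σ / 4) * (15 / 4 * σ - z) * (z + 2 * σ) ^ 2
            ≤ (49 / 16 * σ ^ 2) * (23 / 4 * σ) ^ 2 :=
              mul_le_mul h6 h7 (sq_nonneg _) (by positivity)
          _ = (49 / 16) * (529 / 16) * σ ^ 4 := by ring
          _ ≤ 102 * σ ^ 4 := by
              apply mul_le_mul_of_nonneg_right _ (by positivity)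
              norm_num
      · have h6 : (z - σ / 4) * (15 / 4 * σ - z) ≤ 0 :=
          mul_nonpos_of_nonneg_of_nonpos (by linarith) (by linarith)
        have h7 : (z - σ / 4) * (15 / 4 * σ - z) * (z + 2 * σ) ^ 2 ≤ 0 :=
          mul_nonpos_of_nonpos_of_nonneg h6 (sq_nonneg _)
        exact h7.trans (by positivity)
  have hle : Ex (fun _ => p) (fun ω : I → Bool => q (Z p B ω)) ≤
      102 * σ ^ 4 * Pr (fun _ => p) {ω : I → Bool | Real.sqrt B.card / 10 ≤ ∑ x ∈ B, (b ω x - p)} := by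
    unfold Pr
    rw [← Ex_mul_left]
    apply Ex_mono hp
    intro ω
    refine (hpt (Z p B ω)).trans (le_of_eq ?_)
    congr 1
  have hσ4 : 0 < σ ^ 4 := by positivity
  have h8 : 4.2 * σ ^ 4 ≤ 102 * σ ^ 4 *
      Pr (fun _ => p) {ω : I → Bool | Real.sqrt B.card / 10 ≤ ∑ x ∈ B, (b ω x - p)} := hEq.trans hle
  have h9 : (4.2 : ℝ) ≤ 102 *
      Pr (fun _ => p) {ω : I → Bool | Real.sqrt B.card / 10 ≤ ∑ x ∈ B, (b ω x - p)} := by
    by_contra hcon
    push Not at hcon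
    have := mul_lt_mul_of_pos_right hcon hσ4
    nlinarith
  set P := Pr (fun _ => p) {ω : I → Bool | Real.sqrt B.card / 10 ≤ ∑ x ∈ B, (b ω x - p)} with hP
  clear_value P
  norm_num at h9 ⊢
  linarith

end Pool.Agent.R896.MB
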