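import Pool.Agent.R896.MB.CombAux

/-! MB-COMB1 (MP_b06f47_pr): degrees and common neighbours. -/

set_option autoImplicit false

namespace Pool.Agent.R896.MB

open Finset CombAux

theorem comb1 (k : ℕ) (hk : 2 ≤ k) : StmtComb1 k := by
  classical
  refine ⟨1 / (2 ^ k * (k.factorial : ℝ)), k, 3 * k, 2 * k, by positivity, by positivity,
    by positivity, ?_⟩
  intro n hn
  refine ⟨?_, ?_, ?_, ?_⟩
  · intro v
    have h1 : (nb k v).card =
        ((Icc 1 k).biUnion (fun i => powersetCard i (univ : Finset (Fin n)))).card := by
      refine card_nbij' (fun w => D v w) (fun T => P v T) ?_ ?_ ?_ ?_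
      · intro w hw
        rw [mem_coe, mem_nb] at hw
        rw [mem_coe, mem_biUnion]
        exact ⟨(D v w).card, mem_Icc.mpr hw, mem_powersetCard.mpr ⟨subset_univ _, rfl⟩⟩
      · intro T hT
        rw [mem_coe, mem_biUnion] at hT
        obtain ⟨i, hi, hT⟩ := hT
        rw [mem_Icc] at hi
        rw [mem_powersetCard] at hT
        rw [mem_coe, mem_nb, D_P, hT.2]
        exact hi
      · intro w _
        exact D_inj (D_P v _)
      · intro T _
        exact D_P v T
    rw [h1, card_biUnion]
    · unfold deg
      apply sum_congr rfl
      intro i _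
      rw [card_powersetCard, card_univ, Fintype.card_fin]
    · intro i _ j _ hij
      rw [Function.onFun, disjoint_left]
      intro T hT hT'
      rw [mem_powersetCard] at hT hT'
      exact hij (hT.2.symm.trans hT'.2)
  · refine (choose_lower k hn).trans ?_
    have : n.choose k ≤ deg k n := by
      unfold deg
      exact single_le_sum (f := fun i => n.choose i) (fun i _ => Nat.zero_le _)
        (mem_Icc.mpr ⟨by omega, le_rfl⟩)
    exact_mod_cast this
  · have : deg k n ≤ k * n ^ k := by
      unfold deg
      calc ∑ i ∈ Icc 1 k, n.choose i ≤ ∑ _i ∈ Icc 1 k, n ^ k := by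
            apply sum_le_sum
            intro i hi
            rw [mem_Icc] at hi
            exact (Nat.choose_le_pow n i).trans (Nat.pow_le_pow_right (by omega) hi.2)
        _ = k * n ^ k := by rw [sum_const, Nat.card_Icc, smul_eq_mul, Nat.add_sub_cancel]
    exact_mod_cast this
  · intro w w' hww
    rcases (nb k w ∩ nb k w').eq_empty_or_nonempty with he | ⟨x0, hx0⟩
    · rw [he, card_empty, Nat.cast_zero]
      positivity
    have hR0 : (D w w').Nonempty := by
      rw [nonempty_iff_ne_empty]
      intro h
      exact hww (D_empty_iff.mp h).symm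
    have hR : (D w w').card ≤ 2 * k := by
      rw [mem_inter, mem_nb, mem_nb] at hx0
      have h1 := hammingDist_triangle w x0 w'
      rw [hammingDist_comm x0 w', hd_eq, hd_eq, hd_eq] at h1
      omega
    have h1 : (nb k w ∩ nb k w').card ≤ (Bd n k (D w w')).card := by
      refine card_le_card_of_injOn (fun x => D w x) ?_ ?_
      · intro x hx
        rw [mem_coe, mem_inter, mem_nb, mem_nb] at hx
        rw [mem_coe]
        apply mem_Bd
        rcases Nat.lt_or_ge (D w x).card k with h | h
        · exact Or.inl h
        · right
          refine ⟨le_antisymm hx.1.2 h, ?_⟩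
          rw [nonempty_iff_ne_empty]
          intro hem
          have h2 := D_trans w' w x
          have h3 := card_sd (D w' w) (D w x)
          have h4 : D w' w = D w w' := by
            ext i
            rw [mem_D, mem_D]
            exact ne_comm
          rw [← h2, h4, inter_comm, hem, card_empty] at h3
          have h5 : 0 < (D w w').card := card_pos.mpr hR0
          omega
      · intro x _ x' _ h
        exact D_inj h
    have h2 := card_Bd (k := k) (by omega) (by omega : 1 ≤ n) (D w w')
    have h3 : (nb k w ∩ nb k w').card ≤ (3 * k) * n ^ (k - 1) := by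
      refine h1.trans (h2.trans ?_)
      apply Nat.mul_le_mul_right
      omega
    exact_mod_cast h3

end Pool.Agent.R896.MB
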