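import Pool.Agent.R896.MB.CombAux

/-! MB-COMB2 (MP_b06f47_pr): neighbours with own bits. -/

set_option autoImplicit false

namespace Pool.Agent.R896.MB

open Finset CombAux

theorem comb2 (k : ℕ) (hk : 2 ≤ k) : StmtComb2 k := by
  classical
  refine ⟨1 / (2 ^ k * (k.factorial : ℝ)), 2 * k, 4 ^ k + 1, 2 * k, by positivity, by positivity,
    by positivity, ?_⟩
  intro n hn v
  refine ⟨univ.filter (fun w => (D v w).card = k),
    fun w => (nb k w).filter (fun x => (D v x).card = 2 * k), ?_, ?_, ?_, ?_⟩
  · intro w hw
    rw [mem_filter] at hw
    rw [mem_nb]
    omega
  · refine (choose_lower k hn).trans ?_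
    have h1 : n.choose k ≤ (univ.filter (fun w : Vx n => (D v w).card = k)).card := by
      have h2 : (powersetCard k (univ : Finset (Fin n))).card ≤
          (univ.filter (fun w : Vx n => (D v w).card = k)).card := by
        refine card_le_card_of_injOn (fun T => P v T) ?_ ?_
        · intro T hT
          rw [mem_coe, mem_powersetCard] at hT
          rw [mem_coe, mem_filter, D_P]
          exact ⟨mem_univ _, hT.2⟩
        · intro T _ T' _ h
          have h3 : P v T = P v T' := h
          rw [← D_P v T, ← D_P v T', h3]
      rwa [card_powersetCard, card_univ, Fintype.card_fin] at h2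
    exact_mod_cast h1
  · intro w hw
    rw [mem_filter] at hw
    refine ⟨filter_subset _ _, ?_⟩
    have h1 : (nb k w \ (nb k w).filter (fun x => (D v x).card = 2 * k)).card ≤
        (Bd n k (D v w)).card := by
      refine card_le_card_of_injOn (fun x => D w x) ?_ ?_
      · intro x hx
        rw [mem_coe, mem_sdiff, mem_filter, mem_nb] at hx
        rw [mem_coe]
        apply mem_Bd
        rcases Nat.lt_or_ge (D w x).card k with h | h
        · exact Or.inl h
        · right
          refine ⟨le_antisymm hx.1.2 h, ?_⟩
          rw [nonempty_iff_ne_empty]
          intro hem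
          have h2 := D_trans v w x
          have h3 := card_sd (D v w) (D w x)
          rw [← h2, inter_comm, hem, card_empty, hw.2] at h3
          apply hx.2
          refine ⟨hx.1, ?_⟩
          have := hx.1.2
          omega
      · intro x _ x' _ h
        exact D_inj h
    have h2 := card_Bd (k := k) (by omega) (by omega : 1 ≤ n) (D v w)
    have h3 : (nb k w \ (nb k w).filter (fun x => (D v x).card = 2 * k)).card ≤
        (2 * k) * n ^ (k - 1) := by
      refine h1.trans (h2.trans ?_)
      apply Nat.mul_le_mul_right
      rw [hw.2]
      omega
    exact_mod_cast h3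
  · intro x
    have h1 : ((univ.filter (fun w : Vx n => (D v w).card = k)).filter (fun w =>
        x ∈ insert w ((nb k w).filter (fun x => (D v x).card = 2 * k)))) ⊆
        insert x (univ.filter (fun w : Vx n => (D v w).card = k ∧ x ∈ nb k w ∧
          (D v x).card = 2 * k)) := by
      intro w hw
      rw [mem_filter, mem_filter, mem_insert, mem_filter] at hw
      rw [mem_insert, mem_filter]
      rcases hw.2 with h | h
      · exact Or.inl h.symm
      · exact Or.inr ⟨mem_univ _, hw.1.2, h.1, h.2⟩
    refine (card_le_card h1).trans ((card_insert_le _ _).trans ?_)
    apply Nat.add_le_add_right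
    by_cases hU : (D v x).card = 2 * k
    · have h2 : (univ.filter (fun w : Vx n => (D v w).card = k ∧ x ∈ nb k w ∧
          (D v x).card = 2 * k)).card ≤ ((D v x).powerset).card := by
        refine card_le_card_of_injOn (fun w => D v w) ?_ ?_
        · intro w hw
          rw [mem_coe, mem_filter, mem_nb] at hw
          obtain ⟨_, h3, h4, _⟩ := hw
          rw [mem_coe, mem_powerset]
          -- |S Δ U| ≤ k
          have h5 : D w x = symmDiff (D v w) (D v x) := by
            have h6 := D_trans w v x
            have h7 : D w v = D v w := by
              ext i
              rw [mem_D, mem_D]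
              exact ne_comm
            rw [h6, h7]
          have h8 := card_sd (D v w) (D v x)
          rw [← h5, h3, hU] at h8
          have h9 : (D v w ∩ D v x).card ≤ (D v w).card := card_le_card inter_subset_left
          have h10 : (D v w ∩ D v x).card = (D v w).card := by omega
          have h11 : D v w ∩ D v x = D v w := eq_of_subset_of_card_le inter_subset_left (by omega)
          show D v w ⊆ D v x
          rw [← h11]
          exact inter_subset_right
        · intro w _ w' _ h
          exact D_inj h
      refine h2.trans ?_
      rw [card_powerset, hU, pow_mul]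
      norm_num
    · have h2 : (univ.filter (fun w : Vx n => (D v w).card = k ∧ x ∈ nb k w ∧
          (D v x).card = 2 * k)) = ∅ := by
        rw [filter_eq_empty_iff]
        intro w _ h
        exact hU h.2.2
      rw [h2, card_empty]
      exact Nat.zero_le _

end Pool.Agent.R896.MB
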