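import Pool.Agent.R896.MB.Defs

/-! MB-COMB (MP_b06f47_pr): auxiliary counting lemmas. -/

set_option autoImplicit false

namespace Pool.Agent.R896.MB.CombAux

open Finset

variable {n : ℕ}

/-- the set of the coordinates in which two vertices differ -/
def D (v w : Vx n) : Finset (Fin n) := univ.filter fun i => v i ≠ w i

lemma hd_eq (v w : Vx n) : hammingDist v w = (D v w).card := rfl

lemma mem_D {v w : Vx n} {i : Fin n} : i ∈ D v w ↔ v i ≠ w i := by
  unfold D
  rw [mem_filter]
  simp

lemma D_inj {v w w' : Vx n} (h : D v w = D v w') : w = w' := by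
  funext i
  have h1 : i ∈ D v w ↔ i ∈ D v w' := by rw [h]
  rw [mem_D, mem_D] at h1
  revert h1
  cases v i <;> cases w i <;> cases w' i <;> simp

/-- the vertex at the differences `T` from `v` -/
def P (v : Vx n) (T : Finset (Fin n)) : Vx n := fun i => if i ∈ T then !(v i) else v i

lemma D_P (v : Vx n) (T : Finset (Fin n)) : D v (P v T) = T := by
  ext i
  rw [mem_D]
  unfold P
  by_cases h : i ∈ T
  · simp [h]
  · simp [h]

lemma D_empty_iff {v w : Vx n} : D v w = ∅ ↔ w = v := by
  constructor
  · intro h
    apply D_inj (v := v)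
    rw [h]
    ext i
    rw [mem_D]
    simp
  · rintro rfl
    ext i
    rw [mem_D]
    simp

lemma mem_nb {k : ℕ} {v w : Vx n} : w ∈ nb k v ↔ 1 ≤ (D v w).card ∧ (D v w).card ≤ k := by
  unfold nb
  rw [mem_filter, hd_eq]
  constructor
  · rintro ⟨_, h1, h2⟩
    refine ⟨?_, h2⟩
    rw [Nat.one_le_iff_ne_zero]
    intro h
    rw [card_eq_zero, D_empty_iff] at h
    exact h1 h
  · rintro ⟨h1, h2⟩
    refine ⟨mem_univ _, ?_, h2⟩
    intro h
    rw [D_empty_iff.mpr h, card_empty] at h1
    omega

lemma D_trans (v w x : Vx n) : D v x = symmDiff (D v w) (D w x) := by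
  ext i
  rw [mem_symmDiff, mem_D, mem_D, mem_D]
  cases v i <;> cases w i <;> cases x i <;> simp

lemma card_sd (S T : Finset (Fin n)) :
    (symmDiff S T).card + 2 * (S ∩ T).card = S.card + T.card := by
  have h1 : symmDiff S T = (S \ T) ∪ (T \ S) := rfl
  have h2 : Disjoint (S \ T) (T \ S) := disjoint_sdiff_sdiff
  rw [h1, card_union_of_disjoint h2]
  have h3 := card_sdiff_add_card_inter S T
  have h4 := card_sdiff_add_card_inter T S
  rw [inter_comm T S] at h4
  omega

/-- the small or meeting sets -/
def Bd (n k : ℕ) (R : Finset (Fin n)) : Finset (Finset (Fin n)) :=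
  (range k).biUnion (fun i => powersetCard i (univ : Finset (Fin n))) ∪
    (powersetCard k (univ : Finset (Fin n))).filter (fun T => (T ∩ R).Nonempty)

lemma card_Bd {k : ℕ} (hk : 1 ≤ k) (hn : 1 ≤ n) (R : Finset (Fin n)) :
    (Bd n k R).card ≤ (k + R.card) * n ^ (k - 1) := by
  unfold Bd
  refine (card_union_le _ _).trans ?_
  rw [add_mul]
  apply Nat.add_le_add
  · refine card_biUnion_le.trans ?_
    calc ∑ i ∈ range k, (powersetCard i (univ : Finset (Fin n))).card
        ≤ ∑ _i ∈ range k, n ^ (k - 1) := by
          apply sum_le_sum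
          intro i hi
          rw [mem_range] at hi
          rw [card_powersetCard, card_univ, Fintype.card_fin]
          exact (Nat.choose_le_pow n i).trans (Nat.pow_le_pow_right hn (by omega))
      _ = k * n ^ (k - 1) := by rw [sum_const, card_range, smul_eq_mul]
  · have h1 : (powersetCard k (univ : Finset (Fin n))).filter (fun T => (T ∩ R).Nonempty) ⊆
        R.biUnion (fun i => (powersetCard k (univ : Finset (Fin n))).filter (fun T => i ∈ T)) := by
      intro T hT
      rw [mem_filter] at hT
      obtain ⟨i, hi⟩ := hT.2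
      rw [mem_inter] at hi
      rw [mem_biUnion]
      exact ⟨i, hi.2, mem_filter.mpr ⟨hT.1, hi.1⟩⟩
    refine (card_le_card h1).trans (card_biUnion_le.trans ?_)
    calc ∑ i ∈ R, ((powersetCard k (univ : Finset (Fin n))).filter (fun T => i ∈ T)).card
        ≤ ∑ _i ∈ R, n ^ (k - 1) := by
          apply sum_le_sum
          intro i _
          have h2 : ((powersetCard k (univ : Finset (Fin n))).filter (fun T => i ∈ T)).card ≤
              (powersetCard (k - 1) (univ : Finset (Fin n))).card := by
            refine card_le_card_of_injOn (fun T => T.erase i) ?_ ?_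
            · intro T hT
              rw [mem_coe, mem_filter, mem_powersetCard] at hT
              rw [mem_coe, mem_powersetCard]
              refine ⟨subset_univ _, ?_⟩
              rw [card_erase_of_mem hT.2, hT.1.2]
            · intro T hT T' hT' h
              rw [mem_coe, mem_filter] at hT hT'
              have h3 : T.erase i = T'.erase i := h
              rw [← insert_erase hT.2, ← insert_erase hT'.2, h3]
          refine h2.trans ?_
          rw [card_powersetCard, card_univ, Fintype.card_fin]
          exact Nat.choose_le_pow n (k - 1)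
      _ = R.card * n ^ (k - 1) := by rw [sum_const, smul_eq_mul]

lemma mem_Bd {k : ℕ} {R T : Finset (Fin n)} (h : T.card < k ∨ (T.card = k ∧ (T ∩ R).Nonempty)) :
    T ∈ Bd n k R := by
  unfold Bd
  rw [mem_union]
  rcases h with h | ⟨h, h'⟩
  · left
    rw [mem_biUnion]
    exact ⟨T.card, mem_range.mpr h, mem_powersetCard.mpr ⟨subset_univ _, rfl⟩⟩
  · right
    rw [mem_filter, mem_powersetCard]
    exact ⟨⟨subset_univ _, h⟩, h'⟩

/-- lower bound for the binomial coefficient -/
lemma choose_lower (k : ℕ) {n : ℕ} (hn : 2 * k ≤ n) :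
    (1 / (2 ^ k * (k.factorial : ℝ))) * (n : ℝ) ^ k ≤ (n.choose k : ℝ) := by
  have h1 := Nat.pow_le_choose (α := ℝ) k n
  refine le_trans ?_ h1
  have hk : (0 : ℝ) < k.factorial := by exact_mod_cast Nat.factorial_pos k
  have h2 : (n : ℝ) / 2 ≤ ((n + 1 - k : ℕ) : ℝ) := by
    have h3 : n ≤ 2 * (n + 1 - k) := by omega
    have h4 : (n : ℝ) ≤ 2 * ((n + 1 - k : ℕ) : ℝ) := by exact_mod_cast h3
    linarith
  calc (1 / (2 ^ k * (k.factorial : ℝ))) * (n : ℝ) ^ k = ((n : ℝ) / 2) ^ k / k.factorial := by
        rw [div_pow]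
        field_simp
    _ ≤ ((n + 1 - k : ℕ) : ℝ) ^ k / k.factorial := by
        apply div_le_div_of_nonneg_right _ hk.le
        exact pow_le_pow_left₀ (by positivity) h2 k
    _ = _ := rfl

end Pool.Agent.R896.MB.CombAux
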