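import Pool.Agent.R896.DC.Defs

/-! Project MB: majority bootstrap percolation on the distance-k hypercube (MP_b06f47_pr).
Definitions and exact statements of the pieces (complete proofs: NOTES.md).
The product measure `Pr p S` (bits with probabilities `p i`) and its basic facts are those of project DC:
`Pool.Agent.R896.DC.Defs` (`wt`, `Ex`, `Pr`) and `Pool.Agent.R896.DC.Tool`. -/

set_option autoImplicit false

namespace Pool.Agent.R896.MB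

open Finset
open Pool.Agent.R896.DC (wt Ex Pr)

/-- The bit at `x` as a real number. -/
noncomputable def b {I : Type} (ω : I → Bool) (x : I) : ℝ := if ω x = true then 1 else 0

/-- Vertices of the cube. -/
abbrev Vx (n : ℕ) : Type := Fin n → Bool

/-- The neighbourhood of `v` in the distance-`k` hypercube: the vertices at Hamming distance `1,...,k`. -/
def nb (k : ℕ) {n : ℕ} (v : Vx n) : Finset (Vx n) :=
  univ.filter fun w => w ≠ v ∧ hammingDist v w ≤ k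

/-- The degree `N` of the distance-`k` hypercube. -/
def deg (k n : ℕ) : ℕ := ∑ i ∈ Finset.Icc 1 k, n.choose i

/-- One step of majority bootstrap percolation: `v` becomes infected when at least `N / 2` of its
neighbours are infected. -/
def step (k : ℕ) {n : ℕ} (A : Finset (Vx n)) : Finset (Vx n) :=
  A ∪ univ.filter fun v => deg k n ≤ 2 * (nb k v ∩ A).card

/-- The set of the vertices whose bit is `true`. -/
def A0 {n : ℕ} (ω : Vx n → Bool) : Finset (Vx n) := univ.filter fun v => ω v = true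

/-- Percolation from `A0 ω`. -/
def Perc (k : ℕ) {n : ℕ} (ω : Vx n → Bool) : Prop := ∃ i : ℕ, (step k)^[i] (A0 ω) = univ

/-- The critical probability. -/
noncomputable def pc (k n : ℕ) : ℝ :=
  sSup {p : ℝ | 0 < p ∧ p < 1 ∧ Pr (fun _ : Vx n => p) {ω | Perc k ω} ≤ 1 / 2}

/-! ### the pieces -/

/-- MB-TAIL. -/
def StmtTail : Prop := ∀ (I : Type) [Fintype I] [DecidableEq I] (p : ℝ), 0 ≤ p → p ≤ 1 →
  ∀ (c : I → ℝ) (s t : ℝ), 0 < s → ∑ x, c x ^ 2 ≤ s → 0 ≤ t →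
    Pr (fun _ => p) {ω | t ≤ ∑ x, c x * (b ω x - p)} ≤ Real.exp (-(t ^ 2 / (2 * s)))

/-- MB-MONO. -/
def StmtMono : Prop := ∀ (I : Type) [Fintype I] [DecidableEq I] (p p' : ℝ), 0 ≤ p → p ≤ p' → p' ≤ 1 →
  ∀ S : Set (I → Bool), (∀ ω ω' : I → Bool, ω ∈ S → (∀ i, ω i = true → ω' i = true) → ω' ∈ S) →
    Pr (fun _ => p) S ≤ Pr (fun _ => p') S

open Classical in
/-- MB-FIN. -/
def StmtFin : Prop := ∀ (I T : Type) [Fintype I] [DecidableEq I] (p : ℝ), 0 ≤ p → p ≤ 1 →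
  ∀ (W : Finset T) (J : T → Finset I) (E : T → Set (I → Bool)) (r : ℕ), 0 < r →
    (∀ t ∈ W, DependsOn (fun ω => ω ∈ E t) (J t : Set I)) →
    (∀ i, (W.filter fun t => i ∈ J t).card ≤ r) →
    ∀ μ : ℝ, 0 ≤ μ → μ ≤ ∑ t ∈ W, Pr (fun _ => p) (E t) →
      Pr (fun _ => p) {ω | ((W.filter fun t => ω ∈ E t).card : ℝ) ≤ μ / 4} ≤ Real.exp (-(μ / (4 * r)))

/-- MB-BLK. -/
def StmtBlk : Prop := ∀ (I : Type) [Fintype I] [DecidableEq I] (p : ℝ), 1 / 4 ≤ p → p ≤ 1 / 2 →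
  ∀ B : Finset I, 64 ≤ B.card →
    1 / 50 ≤ Pr (fun _ => p) {ω : I → Bool | Real.sqrt B.card / 10 ≤ ∑ x ∈ B, (b ω x - p)}

/-- MB-BIN. -/
def StmtBin : Prop := ∀ δ : ℝ, 0 < δ → ∃ a : ℝ, 0 < a ∧ ∃ M0 : ℕ,
  ∀ (I : Type) [Fintype I] [DecidableEq I] (p : ℝ), 1 / 4 ≤ p → p ≤ 1 / 2 →
  ∀ (O : Finset I), M0 ≤ O.card → ∀ D : ℝ, D ≤ a * Real.sqrt (O.card * Real.log O.card) →
    (O.card : ℝ) ^ (-δ) ≤ Pr (fun _ => p) {ω : I → Bool | D ≤ ∑ x ∈ O, (b ω x - p)}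

/-- MB-COMB (first part): degrees and common neighbours. -/
def StmtComb1 (k : ℕ) : Prop := ∃ (a A B : ℝ) (n0 : ℕ), 0 < a ∧ 0 < A ∧ 0 < B ∧ ∀ n : ℕ, n0 ≤ n →
  (∀ v : Vx n, (nb k v).card = deg k n) ∧
  a * (n : ℝ) ^ k ≤ deg k n ∧ (deg k n : ℝ) ≤ A * (n : ℝ) ^ k ∧
  ∀ w w' : Vx n, w ≠ w' → ((nb k w ∩ nb k w').card : ℝ) ≤ B * (n : ℝ) ^ (k - 1)

/-- MB-COMB (second part): for every `v` many neighbours `w` with large sets of own bits `O w`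
such that every bit is in a bounded number of the sets `{w} ∪ O w`. -/
def StmtComb2 (k : ℕ) : Prop := ∃ (a B : ℝ) (r n0 : ℕ), 0 < a ∧ 0 < B ∧ 0 < r ∧ ∀ n : ℕ, n0 ≤ n →
  ∀ v : Vx n, ∃ (W : Finset (Vx n)) (O : Vx n → Finset (Vx n)), W ⊆ nb k v ∧
    a * (n : ℝ) ^ k ≤ (W.card : ℝ) ∧
    (∀ w ∈ W, O w ⊆ nb k w ∧ ((nb k w \ O w).card : ℝ) ≤ B * (n : ℝ) ^ (k - 1)) ∧
    ∀ x : Vx n, (W.filter fun w => x ∈ insert w (O w)).card ≤ r

/-- The deviation `c sqrt(log n / n^k)` of the probability from `1/2`. -/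
noncomputable def ep (c : ℝ) (k n : ℕ) : ℝ := c * Real.sqrt (Real.log n / (n : ℝ) ^ k)

/-- MB-LO. -/
def StmtLo (k : ℕ) : Prop := ∃ C : ℝ, 0 < C ∧ ∃ n0 : ℕ, ∀ n : ℕ, n0 ≤ n →
  0 < 1 / 2 - ep C k n ∧ Pr (fun _ : Vx n => 1 / 2 - ep C k n) {ω | Perc k ω} ≤ 1 / 2

/-- MB-UP. -/
def StmtUp (k : ℕ) : Prop := ∃ c : ℝ, 0 < c ∧ ∃ n0 : ℕ, ∀ n : ℕ, n0 ≤ n →
  0 < 1 / 2 - ep c k n ∧ 1 / 2 < Pr (fun _ : Vx n => 1 / 2 - ep c k n) {ω | Perc k ω}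

end Pool.Agent.R896.MB
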