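import Pool.Agent.R896.MB.Defs
import Pool.Agent.R896.DC.Tool

/-! MB-FIN: Finner inequality for read-r families and the lower tail. -/

set_option autoImplicit false

namespace Pool.Agent.R896.MB

open Finset
open Pool.Agent.R896.DC

namespace FinAux

variable {I T : Type} [Fintype I] [DecidableEq I]

/-- Average over the coordinate `i`. -/
noncomputable def M (p : ℝ) (i : I) (f : (I → Bool) → ℝ) : (I → Bool) → ℝ :=
  fun ω => p * f (Function.update ω i true) + (1 - p) * f (Function.update ω i false)

/-- Insert the value of the coordinate `i`. -/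
def ins (i : I) (c : Bool) (ρ : {j : I // j ≠ i} → Bool) : I → Bool :=
  fun j => if h : j = i then c else ρ ⟨j, h⟩

/-- Splitting off the coordinate `i`. -/
def insE (i : I) : Bool × ({j : I // j ≠ i} → Bool) ≃ (I → Bool) where
  toFun x := ins i x.1 x.2
  invFun ω := (ω i, fun j => ω j)
  left_inv x := by
    rcases x with ⟨c, ρ⟩
    refine Prod.ext ?_ ?_
    · simp [ins]
    · funext j
      simp [ins, j.2]
  right_inv ω := by
    funext j
    by_cases h : j = i
    · subst h; simp [ins]
    · simp [ins, h]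

lemma update_ins (i : I) (c c' : Bool) (ρ : {j : I // j ≠ i} → Bool) :
    Function.update (ins i c ρ) i c' = ins i c' ρ := by
  funext j
  by_cases h : j = i
  · subst h; simp [ins]
  · simp [ins, h]

lemma wt_ins (p : ℝ) (i : I) (c : Bool) (ρ : {j : I // j ≠ i} → Bool) :
    wt (fun _ : I => p) (ins i c ρ)
      = (if c = true then p else 1 - p) * ∏ j, (if ρ j = true then p else 1 - p) := by
  unfold wt
  rw [Fintype.prod_eq_mul_prod_subtype_ne _ i]
  congr 1
  · simp [ins]
  · refine prod_congr rfl fun j _ => ?_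
    have : ins i c ρ j = ρ j := by simp [ins, j.2]
    rw [this]

lemma Ex_split (p : ℝ) (i : I) (f : (I → Bool) → ℝ) :
    Ex (fun _ : I => p) f = ∑ ρ : ({j : I // j ≠ i} → Bool),
      (∏ j, (if ρ j = true then p else 1 - p))
        * (p * f (ins i true ρ) + (1 - p) * f (ins i false ρ)) := by
  unfold Ex
  rw [← (insE i).sum_comp, Fintype.sum_prod_type, Fintype.sum_bool, ← sum_add_distrib]
  refine sum_congr rfl fun ρ _ => ?_
  show wt (fun _ : I => p) (ins i true ρ) * f (ins i true ρ)
    + wt (fun _ : I => p) (ins i false ρ) * f (ins i false ρ) = _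
  rw [wt_ins, wt_ins]
  simp
  ring

lemma Ex_M (p : ℝ) (i : I) (f : (I → Bool) → ℝ) :
    Ex (fun _ : I => p) (M p i f) = Ex (fun _ : I => p) f := by
  rw [Ex_split p i, Ex_split p i]
  refine sum_congr rfl fun ρ _ => ?_
  unfold M
  rw [update_ins, update_ins, update_ins, update_ins]
  ring

/-- AM-GM with missing factors `1`. -/
lemma amgm (s : Finset T) (r : ℕ) (hr : 0 < r) (hs : s.card ≤ r) (x : T → ℝ)
    (hx : ∀ t ∈ s, 0 ≤ x t) :
    ∏ t ∈ s, x t ≤ ∑ t ∈ s, (r : ℝ)⁻¹ * x t ^ r + (1 - (s.card : ℝ) / r) := by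
  classical
  have hr0 : (0 : ℝ) < r := by exact_mod_cast hr
  have h := Real.geom_mean_le_arith_mean_weighted (insertNone s)
    (fun o => Option.elim o (1 - (s.card : ℝ) / r) (fun _ => (r : ℝ)⁻¹))
    (fun o => Option.elim o 1 (fun t => x t ^ r)) ?_ ?_ ?_
  · rw [prod_insertNone, sum_insertNone] at h
    simp only [Option.elim_none, Option.elim_some, Real.one_rpow, one_mul, mul_one] at h
    have h2 : ∏ t ∈ s, (x t ^ r) ^ ((r : ℝ)⁻¹) = ∏ t ∈ s, x t := by
      refine prod_congr rfl fun t ht => ?_
      exact Real.pow_rpow_inv_natCast (hx t ht) hr.ne'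
    rw [h2] at h
    linarith
  · intro o ho
    cases o with
    | none =>
      simp only [Option.elim_none]
      rw [sub_nonneg, div_le_one hr0]
      exact_mod_cast hs
    | some t => simp only [Option.elim_some]; positivity
  · rw [sum_insertNone]
    simp only [Option.elim_none, Option.elim_some, sum_const, nsmul_eq_mul]
    field_simp
    ring
  · intro o ho
    cases o with
    | none => simp
    | some t =>
      simp only [Option.elim_some]
      have : t ∈ s := by simpa using ho
      exact pow_nonneg (hx t this) r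

/-- Hölder on two points. -/
lemma holder2 (p : ℝ) (h0 : 0 ≤ p) (h1 : p ≤ 1) (s : Finset T) (r : ℕ) (hr : 0 < r)
    (hs : s.card ≤ r) (x y : T → ℝ) (hx : ∀ t, 0 < x t) (hy : ∀ t, 0 < y t) :
    p * ∏ t ∈ s, x t + (1 - p) * ∏ t ∈ s, y t
      ≤ ∏ t ∈ s, (p * x t ^ r + (1 - p) * y t ^ r) ^ ((r : ℝ)⁻¹) := by
  classical
  have hr0 : (0 : ℝ) < r := by exact_mod_cast hr
  have hq : 0 ≤ 1 - p := by linarith
  set B : T → ℝ := fun t => p * x t ^ r + (1 - p) * y t ^ r with hB
  have hBpos : ∀ t, 0 < B t := by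
    intro t
    have hx' : 0 < x t ^ r := pow_pos (hx t) r
    have hy' : 0 < y t ^ r := pow_pos (hy t) r
    rcases h0.eq_or_lt with h | h
    · simp only [hB, ← h]; simpa using hy'
    · simp only [hB]
      have := mul_pos h hx'
      have := mul_nonneg hq hy'.le
      linarith
  set A : T → ℝ := fun t => B t ^ ((r : ℝ)⁻¹) with hA
  have hApos : ∀ t, 0 < A t := fun t => Real.rpow_pos_of_pos (hBpos t) _
  have hAr : ∀ t, A t ^ r = B t := fun t => Real.rpow_inv_natCast_pow (hBpos t).le hr.ne'
  have hP : 0 < ∏ t ∈ s, A t := prod_pos fun t _ => hApos t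
  have e1 := amgm s r hr hs (fun t => x t / A t) (fun t _ => (div_pos (hx t) (hApos t)).le)
  have e2 := amgm s r hr hs (fun t => y t / A t) (fun t _ => (div_pos (hy t) (hApos t)).le)
  rw [prod_div_distrib] at e1 e2
  have key : p * ((∏ t ∈ s, x t) / ∏ t ∈ s, A t) + (1 - p) * ((∏ t ∈ s, y t) / ∏ t ∈ s, A t)
      ≤ 1 := by
    calc p * ((∏ t ∈ s, x t) / ∏ t ∈ s, A t) + (1 - p) * ((∏ t ∈ s, y t) / ∏ t ∈ s, A t)
        ≤ p * (∑ t ∈ s, (r : ℝ)⁻¹ * (x t / A t) ^ r + (1 - (s.card : ℝ) / r))
          + (1 - p) * (∑ t ∈ s, (r : ℝ)⁻¹ * (y t / A t) ^ r + (1 - (s.card : ℝ) / r)) :=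
          add_le_add (mul_le_mul_of_nonneg_left e1 h0) (mul_le_mul_of_nonneg_left e2 hq)
      _ = ∑ t ∈ s, (r : ℝ)⁻¹ * ((p * x t ^ r + (1 - p) * y t ^ r) / A t ^ r)
          + (1 - (s.card : ℝ) / r) := by
          have : ∑ t ∈ s, (r : ℝ)⁻¹ * ((p * x t ^ r + (1 - p) * y t ^ r) / A t ^ r)
            = p * ∑ t ∈ s, (r : ℝ)⁻¹ * (x t / A t) ^ r
              + (1 - p) * ∑ t ∈ s, (r : ℝ)⁻¹ * (y t / A t) ^ r := by
            rw [mul_sum, mul_sum, ← sum_add_distrib]
            refine sum_congr rfl fun t _ => ?_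
            rw [div_pow, div_pow]
            ring
          rw [this]; ring
      _ = ∑ t ∈ s, (r : ℝ)⁻¹ * 1 + (1 - (s.card : ℝ) / r) := by
          congr 1
          refine sum_congr rfl fun t _ => ?_
          rw [hAr t]
          have : (p * x t ^ r + (1 - p) * y t ^ r) = B t := rfl
          rw [this, div_self (hBpos t).ne']
      _ = 1 := by
          rw [sum_const, nsmul_eq_mul]
          field_simp
          ring
  have key2 := mul_le_mul_of_nonneg_right key hP.le
  calc p * ∏ t ∈ s, x t + (1 - p) * ∏ t ∈ s, y t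
      = (p * ((∏ t ∈ s, x t) / ∏ t ∈ s, A t) + (1 - p) * ((∏ t ∈ s, y t) / ∏ t ∈ s, A t))
        * ∏ t ∈ s, A t := by
        field_simp
    _ ≤ 1 * ∏ t ∈ s, A t := key2
    _ = _ := one_mul _

/-- Finner's inequality. -/
lemma finner (p : ℝ) (h0 : 0 ≤ p) (h1 : p ≤ 1) (W : Finset T) (r : ℕ) (hr : 0 < r)
    (G : Finset I) : ∀ (J : T → Finset I) (f : T → (I → Bool) → ℝ),
    (∀ t ∈ W, J t ⊆ G) → (∀ t ∈ W, DependsOn (f t) (J t : Set I)) → (∀ t ω, 0 < f t ω) →
    (∀ i, (W.filter fun t => i ∈ J t).card ≤ r) →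
    Ex (fun _ : I => p) (fun ω => ∏ t ∈ W, f t ω)
      ≤ ∏ t ∈ W, (Ex (fun _ : I => p) (fun ω => f t ω ^ r)) ^ ((r : ℝ)⁻¹) := by
  classical
  have hp01 : ∀ i : I, 0 ≤ (fun _ : I => p) i ∧ (fun _ : I => p) i ≤ 1 := fun _ => ⟨h0, h1⟩
  have hq : 0 ≤ 1 - p := by linarith
  induction G using Finset.induction_on with
  | empty =>
    intro J f hJ hf hpos _
    have hc : ∀ t ∈ W, ∀ ω, f t ω = f t (fun _ => false) := by
      intro t ht ω
      refine hf t ht ?_
      intro i hi
      have := hJ t ht hi
      simp at this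
    have e1 : (fun ω => ∏ t ∈ W, f t ω) = fun _ => ∏ t ∈ W, f t (fun _ => false) := by
      funext ω
      exact prod_congr rfl fun t ht => hc t ht ω
    rw [e1, Ex_const]
    refine le_of_eq (prod_congr rfl fun t ht => ?_)
    have e2 : (fun ω => f t ω ^ r) = fun _ => f t (fun _ => false) ^ r := by
      funext ω
      rw [hc t ht ω]
    rw [e2, Ex_const, Real.pow_rpow_inv_natCast (hpos t _).le hr.ne']
  | insert i G hi ih =>
    intro J f hJ hf hpos hcard
    set g : T → (I → Bool) → ℝ := fun t ω => (M p i (fun ω' => f t ω' ^ r) ω) ^ ((r : ℝ)⁻¹)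
      with hg
    have hMpos : ∀ t ω, 0 < M p i (fun ω' => f t ω' ^ r) ω := by
      intro t ω
      unfold M
      have hx' : 0 < f t (Function.update ω i true) ^ r := pow_pos (hpos t _) r
      have hy' : 0 < f t (Function.update ω i false) ^ r := pow_pos (hpos t _) r
      rcases h0.eq_or_lt with h | h
      · rw [← h]; simpa using hy'
      · have := mul_pos h hx'
        have := mul_nonneg hq hy'.le
        show 0 < p * f t (Function.update ω i true) ^ r
          + (1 - p) * f t (Function.update ω i false) ^ r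
        linarith
    have hgpos : ∀ t ω, 0 < g t ω := fun t ω => Real.rpow_pos_of_pos (hMpos t ω) _
    have hstep : ∀ ω, M p i (fun ω' => ∏ t ∈ W, f t ω') ω ≤ ∏ t ∈ W, g t ω := by
      intro ω
      unfold M
      show p * (∏ t ∈ W, f t (Function.update ω i true))
        + (1 - p) * (∏ t ∈ W, f t (Function.update ω i false)) ≤ _
      have hsame : ∀ t ∈ W.filter (fun t => ¬ i ∈ J t), ∀ c : Bool,
          f t (Function.update ω i c) = f t ω := by
        intro t ht c
        rw [mem_filter] at ht
        refine hf t ht.1 ?_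
        intro j hj
        have : j ≠ i := fun h => ht.2 (h ▸ hj)
        simp [this]
      have hgs : ∀ t ∈ W.filter (fun t => ¬ i ∈ J t), g t ω = f t ω := by
        intro t ht
        simp only [hg, M]
        rw [hsame t ht true, hsame t ht false]
        have : p * f t ω ^ r + (1 - p) * f t ω ^ r = f t ω ^ r := by ring
        rw [this, Real.pow_rpow_inv_natCast (hpos t _).le hr.ne']
      rw [← prod_filter_mul_prod_filter_not W (fun t => i ∈ J t)
          (fun t => f t (Function.update ω i true)),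
        ← prod_filter_mul_prod_filter_not W (fun t => i ∈ J t)
          (fun t => f t (Function.update ω i false)),
        ← prod_filter_mul_prod_filter_not W (fun t => i ∈ J t) (fun t => g t ω),
        prod_congr rfl (fun t ht => hsame t ht true), prod_congr rfl (fun t ht => hsame t ht false),
        prod_congr rfl hgs, ← mul_assoc, ← mul_assoc, ← add_mul]
      refine mul_le_mul_of_nonneg_right ?_ (prod_nonneg fun t _ => (hpos t ω).le)
      refine (holder2 p h0 h1 _ r hr (hcard i) _ _ (fun t => hpos t _) (fun t => hpos t _)).trans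
        (le_of_eq ?_)
      rfl
    have hg1 := ih (fun t => (J t).erase i) g ?_ ?_ hgpos ?_
    · calc Ex (fun _ : I => p) (fun ω => ∏ t ∈ W, f t ω)
          = Ex (fun _ : I => p) (M p i (fun ω' => ∏ t ∈ W, f t ω')) := (Ex_M p i _).symm
        _ ≤ Ex (fun _ : I => p) (fun ω => ∏ t ∈ W, g t ω) := Ex_mono hp01 hstep
        _ ≤ _ := hg1
        _ = _ := by
          refine prod_congr rfl fun t _ => ?_
          congr 1
          have : (fun ω => g t ω ^ r) = M p i (fun ω' => f t ω' ^ r) := by
            funext ω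
            exact Real.rpow_inv_natCast_pow (hMpos t ω).le hr.ne'
          rw [this, Ex_M]
    · intro t ht j hj
      rw [mem_erase] at hj
      have := hJ t ht hj.2
      rw [mem_insert] at this
      exact this.resolve_left hj.1
    · intro t ht x y hxy
      have hup : ∀ c : Bool, f t (Function.update x i c) = f t (Function.update y i c) := by
        intro c
        refine hf t ht ?_
        intro j hj
        by_cases hji : j = i
        · subst hji; simp
        · have : x j = y j := hxy j (by simp [hji]; exact hj)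
          simp [hji, this]
      simp only [hg, M]
      rw [hup true, hup false]
    · intro j
      refine le_trans (card_le_card ?_) (hcard j)
      intro t ht
      rw [mem_filter] at ht ⊢
      exact ⟨ht.1, (mem_erase.1 ht.2).2⟩

end FinAux

open FinAux in
/-- MB-FIN. -/
theorem fin : StmtFin := by
  classical
  intro I T _ _ p h0 h1 W J E r hr hdep hcard μ hμ0 hμ
  have hp01 : ∀ i : I, 0 ≤ (fun _ : I => p) i ∧ (fun _ : I => p) i ≤ 1 := fun _ => ⟨h0, h1⟩
  have hr0 : (0 : ℝ) < r := by exact_mod_cast hr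
  set f : T → (I → Bool) → ℝ := fun t ω => Real.exp (-((r : ℝ)⁻¹ * (if ω ∈ E t then 1 else 0)))
    with hf
  have hfin := finner p h0 h1 W r hr univ J f (fun t _ => subset_univ _) ?_
    (fun t ω => Real.exp_pos _) (fun i => by convert hcard i)
  · -- each factor
    have hfac : ∀ t ∈ W, (Ex (fun _ : I => p) (fun ω => f t ω ^ r)) ^ ((r : ℝ)⁻¹)
        ≤ Real.exp (-((1 - Real.exp (-1)) * Pr (fun _ => p) (E t) / r)) := by
      intro t _
      have e1 : (fun ω => f t ω ^ r)
          = fun ω => 1 - (1 - Real.exp (-1)) * (if ω ∈ E t then (1 : ℝ) else 0) := by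
        funext ω
        simp only [hf]
        rw [← Real.exp_nat_mul]
        by_cases h : ω ∈ E t
        · rw [if_pos h]
          have : (r : ℝ) * -((r : ℝ)⁻¹ * 1) = -1 := by field_simp
          rw [this]; ring
        · rw [if_neg h]; simp
      have e2 : Ex (fun _ : I => p) (fun ω => f t ω ^ r)
          = 1 - (1 - Real.exp (-1)) * Pr (fun _ => p) (E t) := by
        rw [e1, Ex_sub, Ex_const, Ex_mul_left]
        congr 2
      have e3 : Ex (fun _ : I => p) (fun ω => f t ω ^ r)
          ≤ Real.exp (-((1 - Real.exp (-1)) * Pr (fun _ => p) (E t))) := by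
        rw [e2]
        have := Real.add_one_le_exp (-((1 - Real.exp (-1)) * Pr (fun _ => p) (E t)))
        linarith
      have e4 : 0 ≤ Ex (fun _ : I => p) (fun ω => f t ω ^ r) :=
        Ex_nonneg hp01 fun ω => pow_nonneg (Real.exp_pos _).le _
      refine (Real.rpow_le_rpow e4 e3 (by positivity)).trans (le_of_eq ?_)
      rw [← Real.exp_mul]
      congr 1
      field_simp
    have hprod : Ex (fun _ : I => p) (fun ω => ∏ t ∈ W, f t ω)
        ≤ Real.exp (-((1 - Real.exp (-1)) * μ / r)) := by
      refine hfin.trans ?_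
      refine (prod_le_prod (fun t _ => ?_) hfac).trans ?_
      · exact Real.rpow_nonneg (Ex_nonneg hp01 fun ω => pow_nonneg (Real.exp_pos _).le _) _
      · rw [← Real.exp_sum, Real.exp_le_exp]
        have : ∑ t ∈ W, -((1 - Real.exp (-1)) * Pr (fun _ => p) (E t) / r)
            = -((1 - Real.exp (-1)) * (∑ t ∈ W, Pr (fun _ => p) (E t)) / r) := by
          rw [sum_neg_distrib, mul_sum, sum_div]
        rw [this, neg_le_neg_iff]
        refine div_le_div_of_nonneg_right ?_ hr0.le
        refine mul_le_mul_of_nonneg_left hμ ?_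
        have : Real.exp (-1) ≤ 1 := by
          rw [Real.exp_le_one_iff]; norm_num
        linarith
    have hsub : {ω : I → Bool | ((W.filter fun t => ω ∈ E t).card : ℝ) ≤ μ / 4}
        ⊆ {ω | Real.exp (-(μ / (4 * r))) ≤ ∏ t ∈ W, f t ω} := by
      intro ω hω
      have hω' : ((W.filter fun t => ω ∈ E t).card : ℝ) ≤ μ / 4 := hω
      show Real.exp (-(μ / (4 * r))) ≤ ∏ t ∈ W, f t ω
      simp only [hf]
      rw [← Real.exp_sum, Real.exp_le_exp, sum_neg_distrib, neg_le_neg_iff, ← mul_sum, sum_boole]
      rw [inv_mul_le_iff₀ hr0]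
      refine hω'.trans (le_of_eq ?_)
      field_simp
    have hMk := Pr_markov hp01 (f := fun ω => ∏ t ∈ W, f t ω)
      (fun ω => prod_nonneg fun t _ => (Real.exp_pos _).le)
      (Real.exp_pos (-(μ / (4 * r))))
    refine (Pr_mono hp01 hsub).trans (hMk.trans ?_)
    rw [div_le_iff₀ (Real.exp_pos _), ← Real.exp_add]
    refine hprod.trans ?_
    rw [Real.exp_le_exp]
    have he : Real.exp (-1) ≤ 1 / 2 := by
      have h3 : (2 : ℝ) ≤ Real.exp 1 := by
        have := Real.add_one_le_exp (1 : ℝ)
        linarith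
      rw [Real.exp_neg]
      rw [inv_le_comm₀ (Real.exp_pos _) (by norm_num)]
      norm_num
      exact h3
    have h5 : -((1 - Real.exp (-1)) * μ / r) ≤ -((1 / 2) * μ / r) := by
      rw [neg_le_neg_iff]
      refine div_le_div_of_nonneg_right ?_ hr0.le
      exact mul_le_mul_of_nonneg_right (by linarith) hμ0
    refine h5.trans (le_of_eq ?_)
    field_simp
    ring
  · intro t ht x y hxy
    have := hdep t ht hxy
    simp only [hf]
    have h2 : (x ∈ E t) = (y ∈ E t) := this
    simp only [h2]

end Pool.Agent.R896.MB
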