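import Pool.Agent.R896.MB.Defs
import Pool.Agent.R896.DC.Tool

/-! Project MB, piece MB-LO: the lower bound of the critical probability. -/

set_option autoImplicit false

namespace Pool.Agent.R896.MB

open Finset
open Pool.Agent.R896.DC (wt Ex Pr)

namespace LoX

lemma sum_b {n : ℕ} (ω : Vx n → Bool) (s : Finset (Vx n)) :
    ∑ x ∈ s, b ω x = ((s ∩ A0 ω).card : ℝ) := by
  unfold b A0
  rw [Finset.sum_boole, Finset.inter_filter, Finset.inter_univ]

open Classical in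
/-- the vertices with many infected neighbours -/
noncomputable def T (k : ℕ) {n : ℕ} (p h : ℝ) (ω : Vx n → Bool) : Finset (Vx n) :=
  univ.filter fun v => h ≤ ∑ x ∈ nb k v, (b ω x - p)

lemma mem_T {k : ℕ} {n : ℕ} {p h : ℝ} {ω : Vx n → Bool} {v : Vx n} :
    v ∈ T k p h ω ↔ h ≤ ∑ x ∈ nb k v, (b ω x - p) := by
  unfold T
  simp

lemma det {k n : ℕ} {e : ℝ} (hdeg : ∀ v : Vx n, (nb k v).card = deg k n)
    (hK : 2 * (n : ℝ) ≤ e * deg k n) (ω : Vx n → Bool)
    (hT : ∀ v : Vx n, (nb k v ∩ T k (1 / 2 - e) (e * deg k n / 2) ω).card < n)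
    (hperc : Perc k ω) (v0 : Vx n) : v0 ∈ T k (1 / 2 - e) (e * deg k n / 2) ω := by
  classical
  obtain ⟨U, hU⟩ : ∃ U : Finset (Vx n), U = T k (1 / 2 - e) (e * deg k n / 2) ω := ⟨_, rfl⟩
  have key : ∀ v : Vx n, ∑ x ∈ nb k v, (b ω x - (1 / 2 - e))
      = ((nb k v ∩ A0 ω).card : ℝ) - (1 / 2 - e) * deg k n := by
    intro v
    rw [Finset.sum_sub_distrib, sum_b, Finset.sum_const, hdeg v, nsmul_eq_mul]
    ring
  have hmem : ∀ v, v ∈ U ↔ e * deg k n / 2 ≤ ((nb k v ∩ A0 ω).card : ℝ) - (1 / 2 - e) * deg k n := by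
    intro v
    rw [hU, mem_T, key v]
  rw [← hU] at hT ⊢
  have hsub : ∀ (v : Vx n) (S : Finset (Vx n)), S ⊆ A0 ω ∪ U →
      (nb k v ∩ S).card ≤ (nb k v ∩ A0 ω).card + (nb k v ∩ U).card := by
    intro v S hS
    refine (Finset.card_le_card (Finset.inter_subset_inter (Finset.Subset.refl _) hS)).trans ?_
    rw [Finset.inter_union_distrib_left]
    exact Finset.card_union_le _ _
  have hstep : ∀ S : Finset (Vx n), S ⊆ A0 ω ∪ U → step k S ⊆ A0 ω ∪ U := by
    intro S hS v hv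
    unfold step at hv
    rcases Finset.mem_union.mp hv with h | h
    · exact hS h
    · by_contra hvZ
      rw [Finset.mem_union, not_or] at hvZ
      have h1 := hvZ.2
      rw [hmem v] at h1
      push Not at h1
      have h2 := hsub v S hS
      have h3 := (Finset.mem_filter.mp h).2
      have h4 : ((deg k n : ℕ) : ℝ) ≤ 2 * (((nb k v ∩ A0 ω).card : ℝ) + ((nb k v ∩ U).card : ℝ)) := by
        exact_mod_cast h3.trans (by omega)
      have h5 : ((nb k v ∩ U).card : ℝ) < n := by exact_mod_cast hT v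
      linarith
  have hit : ∀ i : ℕ, (step k)^[i] (A0 ω) ⊆ A0 ω ∪ U := by
    intro i
    induction i with
    | zero => exact Finset.subset_union_left
    | succ i ih =>
      rw [Function.iterate_succ_apply']
      exact hstep _ ih
  obtain ⟨i, hi⟩ := hperc
  have h1 := hit i
  rw [hi] at h1
  have h2 := hsub v0 univ h1
  rw [Finset.inter_univ, hdeg v0] at h2
  have h3 : ((deg k n : ℕ) : ℝ) ≤ ((nb k v0 ∩ A0 ω).card : ℝ) + ((nb k v0 ∩ U).card : ℝ) := by
    exact_mod_cast h2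
  have h5 : ((nb k v0 ∩ U).card : ℝ) < n := by exact_mod_cast hT v0
  have h6 : (0 : ℝ) ≤ deg k n := Nat.cast_nonneg _
  rw [hmem v0]
  linarith

lemma tail_set (h1 : StmtTail) (k : ℕ) {n : ℕ} {p : ℝ} (hp0 : 0 ≤ p) (hp1 : p ≤ 1)
    (S : Finset (Vx n)) {h s : ℝ} (hh : 0 ≤ h) (hs : 0 < s)
    (hS : ∑ w ∈ S, ∑ w' ∈ S, ((nb k w ∩ nb k w').card : ℝ) ≤ s) :
    Pr (fun _ => p) {ω | ∀ w ∈ S, h ≤ ∑ x ∈ nb k w, (b ω x - p)}
      ≤ Real.exp (-((S.card * h) ^ 2 / (2 * s))) := by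
  classical
  let c : Vx n → ℝ := fun x => ∑ w ∈ S, if x ∈ nb k w then 1 else 0
  have hc2 : ∑ x, c x ^ 2 = ∑ w ∈ S, ∑ w' ∈ S, ((nb k w ∩ nb k w').card : ℝ) := by
    calc ∑ x, c x ^ 2 = ∑ x, ∑ w ∈ S, ∑ w' ∈ S,
          (if x ∈ nb k w then (1 : ℝ) else 0) * (if x ∈ nb k w' then 1 else 0) := by
          refine Finset.sum_congr rfl fun x _ => ?_
          rw [sq, Finset.sum_mul_sum]
      _ = ∑ w ∈ S, ∑ w' ∈ S, ∑ x,
          (if x ∈ nb k w then (1 : ℝ) else 0) * (if x ∈ nb k w' then 1 else 0) := by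
          rw [Finset.sum_comm]
          refine Finset.sum_congr rfl fun w _ => ?_
          rw [Finset.sum_comm]
      _ = _ := by
          refine Finset.sum_congr rfl fun w _ => Finset.sum_congr rfl fun w' _ => ?_
          have h3 : ∀ x, (if x ∈ nb k w then (1 : ℝ) else 0) * (if x ∈ nb k w' then 1 else 0)
              = if x ∈ nb k w ∩ nb k w' then 1 else 0 := by
            intro x
            by_cases h1 : x ∈ nb k w <;> by_cases h2 : x ∈ nb k w' <;> simp [h1, h2]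
          rw [Finset.sum_congr rfl fun x _ => h3 x, Finset.sum_boole]
          congr 2
          ext x
          simp
  have hcb : ∀ ω : Vx n → Bool, ∑ x, c x * (b ω x - p) = ∑ w ∈ S, ∑ x ∈ nb k w, (b ω x - p) := by
    intro ω
    simp only [c, Finset.sum_mul]
    rw [Finset.sum_comm]
    refine Finset.sum_congr rfl fun w _ => ?_
    simp only [ite_mul, one_mul, zero_mul]
    rw [← Finset.sum_filter]
    refine Finset.sum_congr ?_ fun _ _ => rfl
    ext x
    simp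
  refine (DC.Pr_mono (fun _ => ⟨hp0, hp1⟩) ?_).trans
    (h1 _ p hp0 hp1 c s (S.card * h) hs (hc2.le.trans hS) (by positivity))
  intro ω hω
  rw [Set.mem_ofPred_eq, hcb]
  calc (S.card * h : ℝ) = ∑ w ∈ S, h := by simp
    _ ≤ _ := Finset.sum_le_sum fun w hw => hω w hw

end LoX

open LoX Filter in
theorem lo (k : ℕ) (hk : 2 ≤ k) (h1 : StmtTail) (h2 : StmtComb1 k) : StmtLo k := by
  classical
  obtain ⟨a, A, B, n0, ha, hA, hB, H⟩ := h2
  obtain ⟨D, hD⟩ : ∃ D : ℝ, D = 8 * (A + B) * (k + 2) / a ^ 2 := ⟨_, rfl⟩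
  have hDpos : 0 < D := by rw [hD]; positivity
  obtain ⟨C, hCd⟩ : ∃ C : ℝ, C = Real.sqrt D := ⟨_, rfl⟩
  have hC : 0 < C := by rw [hCd]; exact Real.sqrt_pos.mpr hDpos
  have hC2 : C ^ 2 * a ^ 2 = 8 * (A + B) * (k + 2) := by
    rw [hCd, Real.sq_sqrt hDpos.le, hD]
    field_simp
  have hlog : Tendsto (fun n : ℕ => Real.log n) atTop atTop :=
    Real.tendsto_log_atTop.comp tendsto_natCast_atTop_atTop
  have hcast : Tendsto (fun n : ℕ => (n : ℝ)) atTop atTop := tendsto_natCast_atTop_atTop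
  have hev : ∀ᶠ n : ℕ in atTop, n0 ≤ n ∧ 4 ≤ n ∧ 16 * C ^ 2 ≤ (n : ℝ) ∧ 2 * A ≤ (n : ℝ) ∧
      (2 / (C * a)) ^ 2 ≤ Real.log n ∧ 16 / (C ^ 2 * a) ≤ Real.log n := by
    filter_upwards [eventually_ge_atTop n0, eventually_ge_atTop 4, hcast.eventually_ge_atTop (16 * C ^ 2),
      hcast.eventually_ge_atTop (2 * A), hlog.eventually_ge_atTop ((2 / (C * a)) ^ 2),
      hlog.eventually_ge_atTop (16 / (C ^ 2 * a))] with n e1 e2 e3 e4 e5 e6
    exact ⟨e1, e2, e3, e4, e5, e6⟩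
  obtain ⟨n1, hn1⟩ := eventually_atTop.mp hev
  refine ⟨C, hC, n1, fun n hn => ?_⟩
  obtain ⟨e1, e2, e3, e4, e5, e6⟩ := hn1 n hn
  obtain ⟨hdeg, hdl, hdu, hcom⟩ := H n e1
  obtain ⟨e, he⟩ : ∃ e : ℝ, e = ep C k n := ⟨_, rfl⟩
  obtain ⟨L, hL⟩ : ∃ L : ℝ, L = Real.log n := ⟨_, rfl⟩
  rw [← hL] at e5 e6
  rw [← he]
  have hn4 : (4 : ℝ) ≤ n := by exact_mod_cast e2
  have hnpos : (0 : ℝ) < n := by linarith
  have hLpos : 0 < L := by rw [hL]; exact Real.log_pos (by linarith)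
  have hLn : L ≤ n := by
    rw [hL]
    have := Real.log_le_sub_one_of_pos hnpos
    linarith
  have hnk : (0 : ℝ) < (n : ℝ) ^ k := by positivity
  have hn2k : (n : ℝ) ^ 2 ≤ (n : ℝ) ^ k := pow_le_pow_right₀ (by linarith) hk
  obtain ⟨R, hR⟩ : ∃ R : ℝ, R = Real.sqrt ((n : ℝ) ^ k) := ⟨_, rfl⟩
  have hR0 : 0 < R := by rw [hR]; exact Real.sqrt_pos.mpr hnk
  have hR2 : R ^ 2 = (n : ℝ) ^ k := by rw [hR]; exact Real.sq_sqrt hnk.le
  have hRn : (n : ℝ) ≤ R := by
    rw [hR]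
    exact Real.le_sqrt_of_sq_le hn2k
  have heR : e = C * (Real.sqrt L / R) := by
    rw [he, ep, hL, hR, Real.sqrt_div' _ hnk.le]
  have hsL : 0 < Real.sqrt L := Real.sqrt_pos.mpr hLpos
  have hsL2 : Real.sqrt L ^ 2 = L := Real.sq_sqrt hLpos.le
  have he0 : 0 < e := by rw [heR]; positivity
  have he2 : e ^ 2 * (n : ℝ) ^ k = C ^ 2 * L := by
    rw [heR, ← hR2]
    field_simp
    rw [hsL2]
  have he4 : e ≤ 1 / 4 := by
    have h3 : e ^ 2 ≤ (1 / 4) ^ 2 := by
      have h4 : e ^ 2 * (n : ℝ) ^ 2 ≤ C ^ 2 * n := by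
        calc e ^ 2 * (n : ℝ) ^ 2 ≤ e ^ 2 * (n : ℝ) ^ k := by gcongr
          _ = C ^ 2 * L := he2
          _ ≤ C ^ 2 * n := by gcongr
      have h5 : e ^ 2 * (n : ℝ) ≤ C ^ 2 := by
        have : e ^ 2 * (n : ℝ) * n ≤ C ^ 2 * n := by nlinarith
        exact le_of_mul_le_mul_right this hnpos
      have h6 : e ^ 2 * (n : ℝ) ≤ (1 / 4) ^ 2 * n := by nlinarith
      exact le_of_mul_le_mul_right h6 hnpos
    exact le_of_sq_le_sq h3 (by norm_num)
  have hsLC : 2 ≤ C * a * Real.sqrt L := by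
    have h3 : 2 / (C * a) ≤ Real.sqrt L := Real.le_sqrt_of_sq_le e5
    rw [div_le_iff₀ (by positivity)] at h3
    linarith
  obtain ⟨N, hN⟩ : ∃ N : ℝ, N = ((deg k n : ℕ) : ℝ) := ⟨_, rfl⟩
  have hN0 : 0 < N := by
    rw [hN]
    have : 0 < a * (n : ℝ) ^ k := by positivity
    linarith
  rw [← hN] at hdl hdu
  have hK : 2 * (n : ℝ) ≤ e * N := by
    have h3 : e * (a * (n : ℝ) ^ k) = (C * a * Real.sqrt L) * R := by
      rw [heR, ← hR2]
      field_simp
    calc 2 * (n : ℝ) ≤ 2 * R := by linarith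
      _ ≤ (C * a * Real.sqrt L) * R := by gcongr
      _ = e * (a * (n : ℝ) ^ k) := h3.symm
      _ ≤ e * N := by gcongr
  have hp0 : (0 : ℝ) ≤ 1 / 2 - e := by linarith
  have hp1 : (1 / 2 - e : ℝ) ≤ 1 := by linarith
  refine ⟨by linarith, ?_⟩
  -- the two events
  obtain ⟨U, hU⟩ : ∃ U : Finset (Finset (Vx n)),
    U = (univ : Finset (Vx n)).biUnion (fun v => powersetCard n (nb k v)) := ⟨_, rfl⟩
  obtain ⟨v0, hv0⟩ : ∃ v0 : Vx n, v0 = fun _ => false := ⟨_, rfl⟩
  have hsubset : {ω : Vx n → Bool | Perc k ω} ⊆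
      {ω | ∃ S ∈ U, ω ∈ {ω | ∀ w ∈ S, e * N / 2 ≤ ∑ x ∈ nb k w, (b ω x - (1 / 2 - e))}} ∪
      {ω | ∀ w ∈ ({v0} : Finset (Vx n)), e * N / 2 ≤ ∑ x ∈ nb k w, (b ω x - (1 / 2 - e))} := by
    intro ω hω
    by_cases hT : ∀ v : Vx n, (nb k v ∩ T k (1 / 2 - e) (e * deg k n / 2) ω).card < n
    · right
      intro w hw
      rw [Finset.mem_singleton] at hw
      subst hw
      have h3 := det hdeg (by rw [← hN]; exact hK) ω hT hω w
      rw [mem_T, ← hN] at h3
      exact h3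
    · left
      push Not at hT
      obtain ⟨v, hv⟩ := hT
      obtain ⟨S, hS1, hS2⟩ := Finset.exists_subset_card_eq hv
      refine ⟨S, ?_, ?_⟩
      · rw [hU, Finset.mem_biUnion]
        refine ⟨v, Finset.mem_univ _, ?_⟩
        rw [Finset.mem_powersetCard]
        exact ⟨fun x hx => (Finset.mem_inter.mp (hS1 hx)).1, hS2⟩
      · intro w hw
        have h3 := (Finset.mem_inter.mp (hS1 hw)).2
        rw [mem_T, ← hN] at h3
        exact h3
  have hh : 0 ≤ e * N / 2 := by positivity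
  -- second event
  have hF2 : Pr (fun _ : Vx n => 1 / 2 - e)
      {ω | ∀ w ∈ ({v0} : Finset (Vx n)), e * N / 2 ≤ ∑ x ∈ nb k w, (b ω x - (1 / 2 - e))} ≤ 1 / 4 := by
    refine (tail_set h1 k hp0 hp1 {v0} hh hN0 ?_).trans ?_
    · rw [Finset.sum_singleton, Finset.sum_singleton, Finset.inter_self, hdeg, hN]
    · have h3 : (2 : ℝ) ≤ (((({v0} : Finset (Vx n)).card : ℝ) * (e * N / 2)) ^ 2 / (2 * N)) := by
        rw [Finset.card_singleton, le_div_iff₀ (by positivity)]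
        have h4 : C ^ 2 * L * a ≤ e ^ 2 * N := by
          calc C ^ 2 * L * a = e ^ 2 * (a * (n : ℝ) ^ k) := by rw [← he2]; ring
            _ ≤ e ^ 2 * N := by gcongr
        have h5 : 16 ≤ C ^ 2 * L * a := by
          rw [div_le_iff₀ (by positivity)] at e6
          linarith
        have h6 : 16 * N ≤ e ^ 2 * N * N := mul_le_mul_of_nonneg_right (h5.trans h4) hN0.le
        push_cast
        linarith [h6, show (1 * (e * N / 2)) ^ 2 = e ^ 2 * N * N / 4 by ring]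
      have h7 : (4 : ℝ) ≤ Real.exp 2 := by
        have h8 : (2 : ℝ) ≤ Real.exp 1 := by
          have := Real.add_one_le_exp (1 : ℝ)
          linarith
        have h9 : Real.exp 2 = Real.exp 1 * Real.exp 1 := by rw [← Real.exp_add]; norm_num
        rw [h9]
        nlinarith
      calc Real.exp (-_) ≤ Real.exp (-2) := Real.exp_le_exp.mpr (by linarith)
        _ = (Real.exp 2)⁻¹ := Real.exp_neg 2
        _ ≤ (4 : ℝ)⁻¹ := inv_anti₀ (by norm_num) h7
        _ = 1 / 4 := by norm_num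
  -- first event
  have hF1 : Pr (fun _ : Vx n => 1 / 2 - e)
      {ω | ∃ S ∈ U, ω ∈ {ω | ∀ w ∈ S, e * N / 2 ≤ ∑ x ∈ nb k w, (b ω x - (1 / 2 - e))}} ≤ 1 / 4 := by
    refine (DC.Pr_exists_le (fun _ => ⟨hp0, hp1⟩) U _).trans ?_
    have hone : ∀ S ∈ U, Pr (fun _ : Vx n => 1 / 2 - e)
        {ω | ∀ w ∈ S, e * N / 2 ≤ ∑ x ∈ nb k w, (b ω x - (1 / 2 - e))}
        ≤ (((n : ℝ) ^ (k + 2)) ^ n)⁻¹ := by
      intro S hS
      rw [hU, Finset.mem_biUnion] at hS
      obtain ⟨v, _, hv⟩ := hS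
      rw [Finset.mem_powersetCard] at hv
      have hs : ∑ w ∈ S, ∑ w' ∈ S, ((nb k w ∩ nb k w').card : ℝ) ≤ (A + B) * (n : ℝ) ^ (k + 1) := by
        have h3 : ∀ w ∈ S, ∑ w' ∈ S, ((nb k w ∩ nb k w').card : ℝ) ≤ (A + B) * (n : ℝ) ^ k := by
          intro w hw
          calc ∑ w' ∈ S, ((nb k w ∩ nb k w').card : ℝ)
              ≤ ∑ w' ∈ S, ((if w = w' then N else 0) + B * (n : ℝ) ^ (k - 1)) := by
                refine Finset.sum_le_sum fun w' _ => ?_
                by_cases hww : w = w'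
                · subst hww
                  rw [if_pos rfl, Finset.inter_self, hdeg, hN]
                  have : 0 ≤ B * (n : ℝ) ^ (k - 1) := by positivity
                  linarith
                · rw [if_neg hww, zero_add]
                  exact hcom w w' hww
            _ = N + n * (B * (n : ℝ) ^ (k - 1)) := by
                rw [Finset.sum_add_distrib, Finset.sum_ite_eq, if_pos hw, Finset.sum_const, hv.2,
                  nsmul_eq_mul]
            _ ≤ A * (n : ℝ) ^ k + B * (n : ℝ) ^ k := by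
                have h4 : (n : ℝ) * (n : ℝ) ^ (k - 1) = (n : ℝ) ^ k := by
                  rw [← pow_succ', Nat.sub_add_cancel (by omega)]
                have h5 : n * (B * (n : ℝ) ^ (k - 1)) = B * (n : ℝ) ^ k := by
                  rw [← h4]; ring
                rw [h5]
                linarith
            _ = (A + B) * (n : ℝ) ^ k := by ring
        calc ∑ w ∈ S, ∑ w' ∈ S, ((nb k w ∩ nb k w').card : ℝ) ≤ ∑ w ∈ S, (A + B) * (n : ℝ) ^ k :=
              Finset.sum_le_sum h3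
          _ = (A + B) * (n : ℝ) ^ (k + 1) := by
              rw [Finset.sum_const, hv.2, nsmul_eq_mul, pow_succ]
              ring
      refine (tail_set h1 k hp0 hp1 S hh (by positivity) hs).trans ?_
      have h6 : ((k : ℝ) + 2) * n * L ≤
          ((S.card : ℝ) * (e * N / 2)) ^ 2 / (2 * ((A + B) * (n : ℝ) ^ (k + 1))) := by
        rw [hv.2, le_div_iff₀ (by positivity)]
        have h7 : C ^ 2 * L * a ^ 2 * (n : ℝ) ^ k ≤ e ^ 2 * N ^ 2 := by
          calc C ^ 2 * L * a ^ 2 * (n : ℝ) ^ k = e ^ 2 * (a * (n : ℝ) ^ k) ^ 2 := by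
                rw [← he2]; ring
            _ ≤ e ^ 2 * N ^ 2 := by gcongr
        have h8 : C ^ 2 * L * a ^ 2 * (n : ℝ) ^ k = 8 * (A + B) * (k + 2) * L * (n : ℝ) ^ k := by
          rw [← hC2]; ring
        rw [h8] at h7
        have h9 : (n : ℝ) ^ 2 / 4 * (8 * (A + B) * (k + 2) * L * (n : ℝ) ^ k) ≤
            (n : ℝ) ^ 2 / 4 * (e ^ 2 * N ^ 2) := mul_le_mul_of_nonneg_left h7 (by positivity)
        calc ((k : ℝ) + 2) * n * L * (2 * ((A + B) * (n : ℝ) ^ (k + 1)))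
            = (n : ℝ) ^ 2 / 4 * (8 * (A + B) * (k + 2) * L * (n : ℝ) ^ k) := by
              rw [pow_succ]; ring
          _ ≤ (n : ℝ) ^ 2 / 4 * (e ^ 2 * N ^ 2) := h9
          _ = ((n : ℝ) * (e * N / 2)) ^ 2 := by ring
      calc Real.exp (-_) ≤ Real.exp (-(((k : ℝ) + 2) * n * L)) := Real.exp_le_exp.mpr (by linarith)
        _ = (((n : ℝ) ^ (k + 2)) ^ n)⁻¹ := by
            rw [Real.exp_neg]
            congr 1
            have h10 : ((k : ℝ) + 2) * n * L = ((k + 2) * n : ℕ) * L := by push_cast; ring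
            rw [h10, Real.exp_nat_mul, hL, Real.exp_log hnpos, pow_mul]
    have hcard : (U.card : ℝ) ≤ 2 ^ n * N ^ n := by
      have h3 : U.card ≤ 2 ^ n * (deg k n) ^ n := by
        rw [hU]
        refine Finset.card_biUnion_le.trans ?_
        calc ∑ v : Vx n, (powersetCard n (nb k v)).card = ∑ v : Vx n, (deg k n).choose n := by
              refine Finset.sum_congr rfl fun v _ => ?_
              rw [Finset.card_powersetCard, hdeg v]
          _ = 2 ^ n * (deg k n).choose n := by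
              rw [Finset.sum_const, Finset.card_univ, smul_eq_mul]
              congr 1
              simp
          _ ≤ 2 ^ n * (deg k n) ^ n := Nat.mul_le_mul_left _ (Nat.choose_le_pow _ _)
      rw [hN]
      exact_mod_cast h3
    calc ∑ S ∈ U, Pr (fun _ : Vx n => 1 / 2 - e)
            {ω | ∀ w ∈ S, e * N / 2 ≤ ∑ x ∈ nb k w, (b ω x - (1 / 2 - e))}
          ≤ ∑ S ∈ U, (((n : ℝ) ^ (k + 2)) ^ n)⁻¹ := Finset.sum_le_sum hone
      _ = U.card * (((n : ℝ) ^ (k + 2)) ^ n)⁻¹ := by rw [Finset.sum_const, nsmul_eq_mul]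
      _ ≤ (2 ^ n * (A * (n : ℝ) ^ k) ^ n) * (((n : ℝ) ^ (k + 2)) ^ n)⁻¹ := by
          gcongr
          refine hcard.trans ?_
          gcongr
      _ = (2 * A / (n : ℝ) ^ 2) ^ n := by
          rw [← mul_pow, ← inv_pow, ← mul_pow]
          congr 1
          rw [pow_add]
          field_simp
      _ ≤ (1 / 4) ^ n := by
          refine pow_le_pow_left₀ (by positivity) ?_ n
          rw [div_le_iff₀ (by positivity)]
          nlinarith
      _ ≤ (1 / 4) ^ 1 := pow_le_pow_of_le_one (by norm_num) (by norm_num) (by omega)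
      _ = 1 / 4 := by norm_num
  calc Pr (fun _ : Vx n => 1 / 2 - e) {ω | Perc k ω}
      ≤ _ := DC.Pr_mono (fun _ => ⟨hp0, hp1⟩) hsubset
    _ ≤ _ := DC.Pr_union_le (fun _ => ⟨hp0, hp1⟩) _ _
    _ ≤ 1 / 4 + 1 / 4 := add_le_add hF1 hF2
    _ = 1 / 2 := by norm_num

end Pool.Agent.R896.MB
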