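import Pool.Agent.R896.MB.Defs
import Pool.Agent.R896.DC.Tool

/-! Project MB, piece MONO: the probability of an up-set is monotone in `p` (Holley inequality). -/

set_option autoImplicit false

namespace Pool.Agent.R896.MB

open Finset
open Pool.Agent.R896.DC (wt Ex Pr)

theorem mono : StmtMono := by
  classical
  intro I _ _ p p' hp hpp hp' S hS
  have h0 : ∀ i : I, 0 ≤ (fun _ : I => p) i ∧ (fun _ : I => p) i ≤ 1 := fun i =>
    ⟨hp, hpp.trans hp'⟩
  have h1 : ∀ i : I, 0 ≤ (fun _ : I => p') i ∧ (fun _ : I => p') i ≤ 1 := fun i =>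
    ⟨hp.trans hpp, hp'⟩
  unfold Pr Ex
  have key := holley (α := I → Bool) (μ := fun ω => if ω ∈ S then (1 : ℝ) else 0)
    (f := wt (fun _ : I => p)) (g := wt (fun _ : I => p')) ?_ ?_ ?_ ?_ ?_ ?_
  · calc ∑ ω, wt (fun _ : I => p) ω * (if ω ∈ S then (1 : ℝ) else 0)
        = ∑ ω, (if ω ∈ S then (1 : ℝ) else 0) * wt (fun _ : I => p) ω :=
          Finset.sum_congr rfl fun ω _ => mul_comm _ _
      _ ≤ ∑ ω, (if ω ∈ S then (1 : ℝ) else 0) * wt (fun _ : I => p') ω := key
      _ = _ := Finset.sum_congr rfl fun ω _ => mul_comm _ _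
  · intro ω
    dsimp only
    split_ifs <;> simp
  · intro ω
    exact DC.wt_nonneg h0 ω
  · intro ω
    exact DC.wt_nonneg h1 ω
  · intro ω ω' h
    dsimp only
    by_cases hω : ω ∈ S
    · have : ω' ∈ S := by
        refine hS ω ω' hω fun i hi => ?_
        have := h i
        rw [hi] at this
        exact top_le_iff.1 this
      rw [if_pos hω, if_pos this]
    · rw [if_neg hω]
      split_ifs <;> norm_num
  · rw [DC.sum_wt, DC.sum_wt]
  · intro a b
    unfold wt
    rw [← Finset.prod_mul_distrib, ← Finset.prod_mul_distrib]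
    refine Finset.prod_le_prod (fun i _ => ?_) (fun i _ => ?_)
    · refine mul_nonneg ?_ ?_
      · split_ifs <;> linarith
      · split_ifs <;> linarith
    · simp only [Pi.inf_apply, Pi.sup_apply]
      cases a i <;> cases b i <;> simp <;> nlinarith

end Pool.Agent.R896.MB
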