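import Pool.Agent.R896.MB.Defs
import Pool.Agent.R896.DC.Tool

/-! Project MB (helper896), piece TAIL by helper506: Hoeffding bound for weighted sums of independent bits. -/

set_option autoImplicit false

namespace Pool.Agent.R896.MB.TailPf

open Finset
open Pool.Agent.R896.DC (wt Ex Pr sum_prod_bool Pr_markov Pr_mono)

/-- the moment generating function of a centered bit -/
noncomputable def phi (p y : ℝ) : ℝ := p * Real.exp (y * (1 - p)) + (1 - p) * Real.exp (-(y * p))

lemma phi_ge {p : ℝ} (h0 : 0 ≤ p) (h1 : p ≤ 1) (y : ℝ) : 1 ≤ phi p y := by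
  have e1 := mul_le_mul_of_nonneg_left (Real.add_one_le_exp (y * (1 - p))) h0
  have e2 := mul_le_mul_of_nonneg_left (Real.add_one_le_exp (-(y * p))) (sub_nonneg.2 h1)
  unfold phi
  nlinarith

lemma phi_le {p : ℝ} (h0 : 0 ≤ p) (h1 : p ≤ 1) (y : ℝ) : phi p y ≤ Real.exp (y ^ 2 / 2) := by
  have h2 := phi_ge h0 h1 (-y)
  have h3 := phi_ge h0 h1 y
  have h4 : phi p y * phi p (-y) = 1 + 2 * p * (1 - p) * (Real.cosh y - 1) := by
    unfold phi
    rw [Real.cosh_eq]
    have a1 : Real.exp (y * (1 - p)) * Real.exp (-y * (1 - p)) = 1 := by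
      rw [← Real.exp_add]; ring_nf; exact Real.exp_zero
    have a2 : Real.exp (y * (1 - p)) * Real.exp (-(-y * p)) = Real.exp y := by
      rw [← Real.exp_add]; congr 1; ring
    have a3 : Real.exp (-(y * p)) * Real.exp (-y * (1 - p)) = Real.exp (-y) := by
      rw [← Real.exp_add]; congr 1; ring
    have a4 : Real.exp (-(y * p)) * Real.exp (-(-y * p)) = 1 := by
      rw [← Real.exp_add]; ring_nf; exact Real.exp_zero
    calc (p * Real.exp (y * (1 - p)) + (1 - p) * Real.exp (-(y * p))) *
          (p * Real.exp (-y * (1 - p)) + (1 - p) * Real.exp (-(-y * p)))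
        = p ^ 2 * (Real.exp (y * (1 - p)) * Real.exp (-y * (1 - p))) +
          p * (1 - p) * (Real.exp (y * (1 - p)) * Real.exp (-(-y * p))) +
          p * (1 - p) * (Real.exp (-(y * p)) * Real.exp (-y * (1 - p))) +
          (1 - p) ^ 2 * (Real.exp (-(y * p)) * Real.exp (-(-y * p))) := by ring
      _ = _ := by rw [a1, a2, a3, a4]; ring
  have h5 : 1 ≤ Real.cosh y := Real.one_le_cosh y
  have h6 : 2 * p * (1 - p) ≤ 1 := by nlinarith [sq_nonneg (p - 1 / 2)]
  have h7 : phi p y * phi p (-y) ≤ Real.cosh y := by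
    rw [h4]
    nlinarith
  calc phi p y ≤ phi p y * phi p (-y) := le_mul_of_one_le_right (by linarith) h2
    _ ≤ Real.cosh y := h7
    _ ≤ Real.exp (y ^ 2 / 2) := Real.cosh_le_exp_half_sq y

end Pool.Agent.R896.MB.TailPf

namespace Pool.Agent.R896.MB

open Finset TailPf
open Pool.Agent.R896.DC (wt Ex Pr sum_prod_bool Pr_markov Pr_mono)

theorem tail : StmtTail := by
  intro I _ _ p h0 h1 c s t hs hc ht
  have hp : ∀ i : I, 0 ≤ (fun _ : I => p) i ∧ (fun _ : I => p) i ≤ 1 := fun _ => ⟨h0, h1⟩
  set lam : ℝ := t / s with hlam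
  have hlam0 : 0 ≤ lam := by positivity
  -- the exponential moment
  have hE : Ex (fun _ : I => p) (fun ω => Real.exp (lam * ∑ x, c x * (b ω x - p))) ≤ Real.exp (lam ^ 2 * s / 2) := by
    have e1 : Ex (fun _ : I => p) (fun ω => Real.exp (lam * ∑ x, c x * (b ω x - p))) =
        ∏ x, phi p (lam * c x) := by
      unfold Ex wt
      have e2 : ∀ ω : I → Bool, (∏ i, if ω i = true then p else 1 - p) *
          Real.exp (lam * ∑ x, c x * (b ω x - p)) =
          ∏ i, (fun (i : I) (v : Bool) => (if v = true then p else 1 - p) *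
            Real.exp (lam * (c i * ((if v = true then 1 else 0) - p)))) i (ω i) := by
        intro ω
        rw [mul_sum, Real.exp_sum, ← prod_mul_distrib]
        rfl
      simp only [e2]
      have e3 := sum_prod_bool (fun (i : I) (v : Bool) => (if v = true then p else 1 - p) *
            Real.exp (lam * (c i * ((if v = true then 1 else 0) - p))))
      refine e3.trans (prod_congr rfl fun i _ => ?_)
      simp only [if_true, Bool.false_eq_true, if_false, phi]
      congr 3 <;> ring
    rw [e1]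
    calc ∏ x, phi p (lam * c x) ≤ ∏ x, Real.exp ((lam * c x) ^ 2 / 2) :=
          prod_le_prod (fun x _ => by linarith [phi_ge h0 h1 (lam * c x)]) fun x _ => phi_le h0 h1 _
      _ = Real.exp (∑ x, (lam * c x) ^ 2 / 2) := (Real.exp_sum _ _).symm
      _ ≤ Real.exp (lam ^ 2 * s / 2) := by
          refine Real.exp_le_exp.2 ?_
          have : ∑ x, (lam * c x) ^ 2 / 2 = lam ^ 2 / 2 * ∑ x, c x ^ 2 := by
            rw [mul_sum]
            exact sum_congr rfl fun x _ => by ring
          rw [this]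
          calc lam ^ 2 / 2 * ∑ x, c x ^ 2 ≤ lam ^ 2 / 2 * s := mul_le_mul_of_nonneg_left hc (by positivity)
            _ = lam ^ 2 * s / 2 := by ring
  have hsub : {ω : I → Bool | t ≤ ∑ x, c x * (b ω x - p)} ⊆
      {ω | Real.exp (lam * t) ≤ Real.exp (lam * ∑ x, c x * (b ω x - p))} := by
    intro ω hω
    exact Real.exp_le_exp.2 (mul_le_mul_of_nonneg_left hω hlam0)
  calc Pr (fun _ => p) {ω : I → Bool | t ≤ ∑ x, c x * (b ω x - p)}
      ≤ Pr (fun _ => p) {ω | Real.exp (lam * t) ≤ Real.exp (lam * ∑ x, c x * (b ω x - p))} := Pr_mono hp hsub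
    _ ≤ Ex (fun _ : I => p) (fun ω => Real.exp (lam * ∑ x, c x * (b ω x - p))) / Real.exp (lam * t) :=
        Pr_markov hp (fun ω => (Real.exp_pos _).le) (Real.exp_pos _)
    _ ≤ Real.exp (lam ^ 2 * s / 2) / Real.exp (lam * t) := div_le_div_of_nonneg_right hE (Real.exp_pos _).le
    _ = Real.exp (-(t ^ 2 / (2 * s))) := by
        rw [← Real.exp_sub]
        congr 1
        rw [hlam]
        field_simp
        ring

end Pool.Agent.R896.MB
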