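import Pool.Agent.R896.MB.Defs
import Pool.Agent.R896.DC.Tool

/-! Project MB, piece MB-UP: the upper bound of the critical probability. -/

set_option autoImplicit false

namespace Pool.Agent.R896.MB

open Finset
open Pool.Agent.R896.DC (wt Ex Pr)

namespace UpAux

lemma sum_b {I : Type} [DecidableEq I] (ω : I → Bool) (S : Finset I) :
    ∑ x ∈ S, b ω x = ((S.filter fun x => ω x = true).card : ℝ) := by
  simp only [b]
  rw [Finset.sum_boole]

lemma sum_bp {I : Type} [DecidableEq I] (ω : I → Bool) (S : Finset I) (p : ℝ) :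
    ∑ x ∈ S, (b ω x - p) = ((S.filter fun x => ω x = true).card : ℝ) - S.card * p := by
  rw [Finset.sum_sub_distrib, sum_b]
  simp

lemma tail_set (h1 : StmtTail) {I : Type} [Fintype I] [DecidableEq I] {p : ℝ} (hp0 : 0 ≤ p)
    (hp1 : p ≤ 1) (S : Finset I) {s t : ℝ} (hs : 0 < s) (hS : (S.card : ℝ) ≤ s) (ht : 0 ≤ t) :
    Pr (fun _ : I => p) {ω | ∑ x ∈ S, (b ω x - p) ≤ -t} ≤ Real.exp (-(t ^ 2 / (2 * s))) := by
  have h := h1 I p hp0 hp1 (fun x => if x ∈ S then -1 else 0) s t hs ?_ ht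
  · refine le_trans (le_of_eq ?_) h
    congr 1
    ext ω
    have e : ∑ x, (if x ∈ S then (-1 : ℝ) else 0) * (b ω x - p) = -∑ x ∈ S, (b ω x - p) := by
      simp only [ite_mul, neg_one_mul, zero_mul, Finset.sum_ite_mem, Finset.univ_inter,
        Finset.sum_neg_distrib]
    simp only [Set.mem_ofPred_eq]
    rw [e]
    constructor <;> intro h <;> linarith
  · have e : ∑ x, (if x ∈ S then (-1 : ℝ) else 0) ^ 2 = S.card := by
      simp only [ite_pow, neg_one_sq, ne_eq, OfNat.ofNat_ne_zero, not_false_eq_true, zero_pow,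
        Finset.sum_ite_mem, Finset.univ_inter, Finset.sum_const, nsmul_eq_mul, mul_one]
    rw [e]; exact hS

lemma not_mem_nb {k n : ℕ} (w : Vx n) : w ∉ nb k w := by
  simp [nb]

open Classical in
/-- The deterministic part: two steps suffice. -/
lemma det {k n : ℕ} (ω : Vx n → Bool) (p e t1 t2 D m : ℝ) (W : Vx n → Finset (Vx n))
    (O : Vx n → Vx n → Finset (Vx n)) (hp : p = 1 / 2 - e)
    (hdeg : ∀ v : Vx n, (nb k v).card = deg k n)
    (hW : ∀ v, W v ⊆ nb k v) (hO : ∀ v, ∀ w ∈ W v, O v w ⊆ nb k w)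
    (e1 : ∀ v, -t1 < ∑ x ∈ nb k v, (b ω x - p))
    (e2 : ∀ v, ∀ w ∈ W v, -t2 < ∑ x ∈ nb k w \ O v w, (b ω x - p))
    (e3 : ∀ v, m < (((W v).filter fun w => ω w ≠ true ∧
      D ≤ ∑ x ∈ O v w, (b ω x - p)).card : ℝ))
    (hD : e * deg k n + t2 ≤ D) (hm : e * deg k n + t1 ≤ m) : Perc k ω := by
  refine ⟨2, ?_⟩
  have key : ∀ v : Vx n, v ∈ step k (step k (A0 ω)) := by
    intro v
    unfold step
    rw [Finset.mem_union]
    right
    rw [Finset.mem_filter]
    refine ⟨Finset.mem_univ _, ?_⟩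
    set W' := (W v).filter fun w => ω w ≠ true ∧ D ≤ ∑ x ∈ O v w, (b ω x - p) with hW'
    have hA : ∀ w : Vx n, nb k w ∩ A0 ω = (nb k w).filter fun x => ω x = true := by
      intro w; ext x; simp [A0]
    have hstep : ∀ w ∈ W', deg k n ≤ 2 * (nb k w ∩ A0 ω).card := by
      intro w hw
      rw [hW', Finset.mem_filter] at hw
      obtain ⟨hw1, hw2, hw3⟩ := hw
      have hsplit : ∑ x ∈ nb k w, (b ω x - p) =
          ∑ x ∈ nb k w \ O v w, (b ω x - p) + ∑ x ∈ O v w, (b ω x - p) :=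
        (Finset.sum_sdiff (hO v w hw1)).symm
      have h2 := e2 v w hw1
      rw [sum_bp, hdeg w, ← hA w] at hsplit
      have h3 : ((deg k n : ℕ) : ℝ) ≤ ((2 * (nb k w ∩ A0 ω).card : ℕ) : ℝ) := by
        push_cast
        have q : (deg k n : ℝ) * p = deg k n / 2 - e * deg k n := by rw [hp]; ring
        linarith
      exact_mod_cast h3
    have hsub : (nb k v ∩ A0 ω) ∪ W' ⊆ nb k v ∩ (A0 ω ∪ univ.filter fun v => deg k n ≤
        2 * (nb k v ∩ A0 ω).card) := by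
      intro x hx
      rw [Finset.mem_union] at hx
      rw [Finset.mem_inter, Finset.mem_union, Finset.mem_filter]
      rcases hx with hx | hx
      · rw [Finset.mem_inter] at hx
        exact ⟨hx.1, Or.inl hx.2⟩
      · exact ⟨hW v (Finset.mem_of_mem_filter x hx), Or.inr ⟨Finset.mem_univ _, hstep x hx⟩⟩
    have hdisj : Disjoint (nb k v ∩ A0 ω) W' := by
      rw [Finset.disjoint_left]
      intro x hx hx'
      rw [hW', Finset.mem_filter] at hx'
      simp only [Finset.mem_inter, A0, Finset.mem_filter] at hx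
      exact hx'.2.1 hx.2.2
    have hcard := Finset.card_le_card hsub
    rw [Finset.card_union_of_disjoint hdisj] at hcard
    have h1 := e1 v
    rw [sum_bp, hdeg v, ← hA v] at h1
    have h3 := e3 v
    have hc2 : (((nb k v ∩ A0 ω).card + W'.card : ℕ) : ℝ) ≤ ((nb k v ∩ (A0 ω ∪
        univ.filter fun v => deg k n ≤ 2 * (nb k v ∩ A0 ω).card)).card : ℝ) := by
      exact_mod_cast hcard
    push_cast at hc2
    have h4 : ((deg k n : ℕ) : ℝ) ≤ ((2 * (nb k v ∩ (A0 ω ∪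
        univ.filter fun v => deg k n ≤ 2 * (nb k v ∩ A0 ω).card)).card : ℕ) : ℝ) := by
      push_cast
      have q : (deg k n : ℝ) * p = deg k n / 2 - e * deg k n := by rw [hp]; ring
      linarith
    exact_mod_cast h4
  show step k (step k (A0 ω)) = univ
  exact Finset.eq_univ_iff_forall.mpr key

open Classical in
/-- The union bound. -/
lemma prob (hT : StmtTail) (hF : StmtFin) {k n : ℕ} (p e t1 t2 D μ s1 s2 : ℝ) (r : ℕ)
    (W : Vx n → Finset (Vx n))
    (O : Vx n → Vx n → Finset (Vx n)) (hp : p = 1 / 2 - e) (hp0 : 0 ≤ p) (hp1 : p ≤ 1)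
    (hdeg : ∀ v : Vx n, (nb k v).card = deg k n)
    (hW : ∀ v, W v ⊆ nb k v) (hO : ∀ v, ∀ w ∈ W v, O v w ⊆ nb k w)
    (hr0 : 0 < r)
    (hr : ∀ v x : Vx n, ((W v).filter fun w => x ∈ insert w (O v w)).card ≤ r)
    (hs1 : 0 < s1) (hs1' : (deg k n : ℝ) ≤ s1) (hs2 : 0 < s2)
    (hs2' : ∀ v, ∀ w ∈ W v, ((nb k w \ O v w).card : ℝ) ≤ s2) (ht1 : 0 ≤ t1) (ht2 : 0 ≤ t2)
    (hμ : 0 ≤ μ)
    (hμ' : ∀ v, μ ≤ ∑ w ∈ W v, Pr (fun _ : Vx n => p) {ω | ω w ≠ true ∧
      D ≤ ∑ x ∈ O v w, (b ω x - p)})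
    (hD : e * deg k n + t2 ≤ D) (hm : e * deg k n + t1 ≤ μ / 4) :
    1 - Pr (fun _ : Vx n => p) {ω | Perc k ω} ≤ 2 ^ n * Real.exp (-(t1 ^ 2 / (2 * s1))) +
      (2 ^ n * (s1 * Real.exp (-(t2 ^ 2 / (2 * s2)))) + 2 ^ n * Real.exp (-(μ / (4 * r)))) := by
  have hpp : ∀ i : Vx n, 0 ≤ (fun _ : Vx n => p) i ∧ (fun _ : Vx n => p) i ≤ 1 := fun _ => ⟨hp0, hp1⟩
  have hcardV : (Finset.univ : Finset (Vx n)).card = 2 ^ n := by
    rw [Finset.card_univ]; simp
  let E1 : Set (Vx n → Bool) := {ω | ∃ v ∈ (Finset.univ : Finset (Vx n)),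
    ω ∈ {ω : Vx n → Bool | ∑ x ∈ nb k v, (b ω x - p) ≤ -t1}}
  let E2 : Set (Vx n → Bool) := {ω | ∃ v ∈ (Finset.univ : Finset (Vx n)),
    ω ∈ {ω : Vx n → Bool | ∃ w ∈ W v, ω ∈ {ω : Vx n → Bool |
      ∑ x ∈ nb k w \ O v w, (b ω x - p) ≤ -t2}}}
  let E3 : Set (Vx n → Bool) := {ω | ∃ v ∈ (Finset.univ : Finset (Vx n)),
    ω ∈ {ω : Vx n → Bool | (((W v).filter fun w => ω ∈ {ω : Vx n → Bool | ω w ≠ true ∧
      D ≤ ∑ x ∈ O v w, (b ω x - p)}).card : ℝ) ≤ μ / 4}}
  have hsub : {ω : Vx n → Bool | Perc k ω}ᶜ ⊆ E1 ∪ (E2 ∪ E3) := by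
    intro ω hω
    by_contra hcon
    rw [Set.mem_union, Set.mem_union] at hcon
    push Not at hcon
    obtain ⟨g1, g2, g3⟩ := hcon
    apply hω
    refine det ω p e t1 t2 D (μ / 4) W O hp hdeg hW hO ?_ ?_ ?_ hD hm
    · intro v
      by_contra h
      exact g1 ⟨v, Finset.mem_univ _, not_lt.mp h⟩
    · intro v w hw
      by_contra h
      exact g2 ⟨v, Finset.mem_univ _, w, hw, not_lt.mp h⟩
    · intro v
      by_contra h
      exact g3 ⟨v, Finset.mem_univ _, not_lt.mp h⟩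
  have hE1 : Pr (fun _ : Vx n => p) E1 ≤ 2 ^ n * Real.exp (-(t1 ^ 2 / (2 * s1))) := by
    refine (DC.Pr_exists_le hpp _ _).trans ?_
    refine (Finset.sum_le_card_nsmul _ _ _ fun v _ => tail_set hT hp0 hp1 (nb k v) hs1
      (by rw [hdeg v]; exact hs1') ht1).trans (le_of_eq ?_)
    rw [hcardV, nsmul_eq_mul]; push_cast; ring
  have hE2 : Pr (fun _ : Vx n => p) E2 ≤ 2 ^ n * (s1 * Real.exp (-(t2 ^ 2 / (2 * s2)))) := by
    refine (DC.Pr_exists_le hpp _ _).trans ?_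
    have hx : ∀ v ∈ (Finset.univ : Finset (Vx n)), Pr (fun _ : Vx n => p)
        {ω : Vx n → Bool | ∃ w ∈ W v, ω ∈ {ω : Vx n → Bool |
          ∑ x ∈ nb k w \ O v w, (b ω x - p) ≤ -t2}} ≤ s1 * Real.exp (-(t2 ^ 2 / (2 * s2))) := by
      intro v _
      refine (DC.Pr_exists_le hpp _ _).trans ?_
      refine (Finset.sum_le_card_nsmul _ _ _ fun w hw => tail_set hT hp0 hp1 (nb k w \ O v w) hs2
        (hs2' v w hw) ht2).trans ?_
      rw [nsmul_eq_mul]
      refine mul_le_mul_of_nonneg_right ?_ (Real.exp_pos _).le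
      have := Finset.card_le_card (hW v)
      rw [hdeg v] at this
      have h2 : ((W v).card : ℝ) ≤ deg k n := by exact_mod_cast this
      linarith
    refine (Finset.sum_le_card_nsmul _ _ _ hx).trans (le_of_eq ?_)
    rw [hcardV, nsmul_eq_mul]; push_cast; ring
  have hE3 : Pr (fun _ : Vx n => p) E3 ≤ 2 ^ n * Real.exp (-(μ / (4 * r))) := by
    refine (DC.Pr_exists_le hpp _ _).trans ?_
    have hx : ∀ v ∈ (Finset.univ : Finset (Vx n)), Pr (fun _ : Vx n => p)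
        {ω : Vx n → Bool | (((W v).filter fun w => ω ∈ {ω : Vx n → Bool | ω w ≠ true ∧
      D ≤ ∑ x ∈ O v w, (b ω x - p)}).card : ℝ) ≤ μ / 4} ≤ Real.exp (-(μ / (4 * r))) := by
      intro v _
      have := hF (Vx n) (Vx n) p hp0 hp1 (W v) (fun w => insert w (O v w))
        (fun w => {ω : Vx n → Bool | ω w ≠ true ∧ D ≤ ∑ x ∈ O v w, (b ω x - p)}) r hr0 ?_ ?_ μ hμ
        (hμ' v)
      · convert this
      · intro w _ ω ω' hh
        simp only [Set.mem_ofPred_eq]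
        have q1 : ω w = ω' w := hh w (by simp)
        have q2 : ∑ x ∈ O v w, (b ω x - p) = ∑ x ∈ O v w, (b ω' x - p) := by
          refine Finset.sum_congr rfl fun x hx => ?_
          have : ω x = ω' x := hh x (by simp [hx])
          simp only [b, this]
        rw [q1, q2]
      · intro x
        convert hr v x using 2
    refine (Finset.sum_le_card_nsmul _ _ _ hx).trans (le_of_eq ?_)
    rw [hcardV, nsmul_eq_mul]; push_cast; ring
  have h1 : Pr (fun _ : Vx n => p) {ω : Vx n → Bool | Perc k ω}ᶜ ≤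
      Pr (fun _ : Vx n => p) (E1 ∪ (E2 ∪ E3)) := DC.Pr_mono hpp hsub
  rw [DC.Pr_compl] at h1
  have h2 := DC.Pr_union_le hpp E1 (E2 ∪ E3)
  have h3 := DC.Pr_union_le hpp E2 E3
  linarith

/-- Lower bound for the probability of the events that are counted. -/
lemma ev_prob {n : ℕ} {p D q : ℝ} (hp1 : p ≤ 1 / 2) (w : Vx n)
    (O : Finset (Vx n)) (hwO : w ∉ O) (hq : 0 ≤ q)
    (hq' : q ≤ Pr (fun _ : Vx n => p) {ω | D ≤ ∑ x ∈ O, (b ω x - p)}) :
    1 / 2 * q ≤ Pr (fun _ : Vx n => p) {ω | ω w ≠ true ∧ D ≤ ∑ x ∈ O, (b ω x - p)} := by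
  have h := DC.Pr_ind2 (fun _ : Vx n => p) {w} (O : Set (Vx n)) (fun ω => ω w ≠ true)
    (fun ω => D ≤ ∑ x ∈ O, (b ω x - p)) ?_ ?_ ?_
  · rw [h]
    have h2 : Pr (fun _ : Vx n => p) {ω : Vx n → Bool | ω w ≠ true} = 1 - p := by
      have h3 := DC.Pr_compl (fun _ : Vx n => p) {ω : Vx n → Bool | ω w = true}
      rw [DC.Pr_bit] at h3
      exact h3
    rw [h2]
    exact mul_le_mul (by linarith) hq' hq (by linarith)
  · intro ω ω' hh
    have q1 : ω w = ω' w := hh w (by simp)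
    simp only [q1]
  · intro ω ω' hh
    have q2 : ∑ x ∈ O, (b ω x - p) = ∑ x ∈ O, (b ω' x - p) := by
      refine Finset.sum_congr rfl fun x hx => ?_
      have : ω x = ω' x := hh x (by exact_mod_cast hx)
      simp only [b, this]
    simp only [q2]
  · rw [Set.disjoint_singleton_left]
    exact_mod_cast hwO

open Filter Topology in
/-- The conditions on `n`. -/
lemma big (k : ℕ) (a A B c g C1 C2 : ℝ) (r M0 : ℕ) (ha : 0 < a) :
    ∃ n0 : ℕ, ∀ n : ℕ, n0 ≤ n → (1 : ℝ) ≤ n ∧ 16 * c ^ 2 ≤ n ∧ 2 * B ≤ a * n ∧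
      2 * M0 ≤ a * n ∧ 2 ≤ a * n ∧ A ≤ n ∧ (2 * C2 / g) ^ 2 ≤ Real.log n ∧
      8 * (g / 2 + C1) / a ≤ (n : ℝ) ^ (1 / 4 : ℝ) ∧ 16 * r / a ≤ (n : ℝ) ^ (1 / 4 : ℝ) ∧
      (2 + A * (n : ℝ) ^ k) * Real.exp (-(n : ℝ)) < 1 / 2 := by
  have hn : Tendsto (fun n : ℕ => (n : ℝ)) atTop atTop := tendsto_natCast_atTop_atTop
  have han : Tendsto (fun n : ℕ => a * (n : ℝ)) atTop atTop := hn.const_mul_atTop ha
  have hl : Tendsto (fun n : ℕ => Real.log (n : ℝ)) atTop atTop := Real.tendsto_log_atTop.comp hn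
  have hy : Tendsto (fun n : ℕ => (n : ℝ) ^ (1 / 4 : ℝ)) atTop atTop :=
    (tendsto_rpow_atTop (by norm_num)).comp hn
  have he : Tendsto (fun n : ℕ => (2 + A * (n : ℝ) ^ k) * Real.exp (-(n : ℝ))) atTop (𝓝 0) := by
    have e1 := (Real.tendsto_pow_mul_exp_neg_atTop_nhds_zero k).comp hn
    have e2 := (Real.tendsto_pow_mul_exp_neg_atTop_nhds_zero 0).comp hn
    have e3 := (e2.const_mul 2).add (e1.const_mul A)
    simp only [mul_zero, add_zero] at e3
    refine e3.congr fun n => ?_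
    simp only [Function.comp_apply, pow_zero, one_mul]
    ring
  have hall := (hn.eventually_ge_atTop 1).and ((hn.eventually_ge_atTop (16 * c ^ 2)).and
    ((han.eventually_ge_atTop (2 * B)).and ((han.eventually_ge_atTop (2 * M0)).and
    ((han.eventually_ge_atTop 2).and ((hn.eventually_ge_atTop A).and
    ((hl.eventually_ge_atTop ((2 * C2 / g) ^ 2)).and
    ((hy.eventually_ge_atTop (8 * (g / 2 + C1) / a)).and
    ((hy.eventually_ge_atTop (16 * r / a)).and
    (he.eventually (gt_mem_nhds (by norm_num : (0 : ℝ) < 1 / 2)))))))))))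
  obtain ⟨n0, h0⟩ := eventually_atTop.mp hall
  exact ⟨n0, fun n hn => h0 n hn⟩

end UpAux

open UpAux

theorem up (k : ℕ) (hk : 2 ≤ k) (h1 : StmtTail) (h2 : StmtFin) (h3 : StmtBin) (h4 : StmtComb1 k)
    (h5 : StmtComb2 k) : StmtUp k := by
  classical
  obtain ⟨a1, A, B1, n1, ha1, hA, hB1, H4⟩ := h4
  obtain ⟨a2, B, r, n2, ha2, hB, hr, H5⟩ := h5
  obtain ⟨a, ha, haa1, haa2⟩ : ∃ a : ℝ, 0 < a ∧ a ≤ a1 ∧ a ≤ a2 :=
    ⟨min a1 a2, lt_min ha1 ha2, min_le_left _ _, min_le_right _ _⟩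
  obtain ⟨a', ha', M0, H3⟩ := h3 (1 / (4 * ((k : ℝ) + 1))) (by positivity)
  obtain ⟨g, hg⟩ : ∃ g : ℝ, g = a' * Real.sqrt (a / 2) := ⟨_, rfl⟩
  have hg0 : 0 < g := by rw [hg]; positivity
  obtain ⟨c, hc⟩ : ∃ c : ℝ, c = g / (2 * A) := ⟨_, rfl⟩
  have hc0 : 0 < c := by rw [hc]; positivity
  obtain ⟨C1, hC1⟩ : ∃ C1 : ℝ, C1 = Real.sqrt (4 * A) := ⟨_, rfl⟩
  obtain ⟨C2, hC2⟩ : ∃ C2 : ℝ, C2 = Real.sqrt (4 * B) := ⟨_, rfl⟩
  have hC10 : 0 ≤ C1 := by rw [hC1]; positivity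
  have hC20 : 0 ≤ C2 := by rw [hC2]; positivity
  have hC1s : C1 ^ 2 = 4 * A := by rw [hC1]; exact Real.sq_sqrt (by positivity)
  have hC2s : C2 ^ 2 = 4 * B := by rw [hC2]; exact Real.sq_sqrt (by positivity)
  obtain ⟨n3, H6⟩ := big k a A B c g C1 C2 r M0 ha
  refine ⟨c, hc0, max (max n1 n2) n3, fun n hn => ?_⟩
  obtain ⟨f1, f2, f3, f4, f5, f6, f7, f8, f9, f10⟩ := H6 n (le_trans (le_max_right _ _) hn)
  obtain ⟨d1, d2, d3, -⟩ := H4 n (le_trans (le_trans (le_max_left _ _) (le_max_left _ _)) hn)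
  have H5' := H5 n (le_trans (le_trans (le_max_right _ _) (le_max_left _ _)) hn)
  choose W O hW hWc hO hOr using H5'
  -- numerical notation
  obtain ⟨x, hx⟩ : ∃ x : ℝ, x = (n : ℝ) := ⟨_, rfl⟩
  rw [← hx] at f1 f2 f3 f4 f5 f6 f7 f8 f9 f10 d2 d3
  simp only [← hx] at hWc hO
  have hx0 : 0 < x := by linarith
  have hkk : x ^ k = x ^ (k - 1) * x := by
    rw [← pow_succ]; congr 1; omega
  have hk1 : 0 < x ^ (k - 1) := by positivity
  have hkp : 0 < x ^ k := by positivity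
  have hx1k : x ≤ x ^ (k - 1) := by
    calc x = x ^ 1 := (pow_one x).symm
      _ ≤ x ^ (k - 1) := pow_le_pow_right₀ f1 (by omega)
  have hx2k : x ^ 2 ≤ x ^ k := pow_le_pow_right₀ f1 hk
  obtain ⟨L, hL⟩ : ∃ L : ℝ, L = Real.log x := ⟨_, rfl⟩
  rw [← hL] at f7
  have hL0 : 0 ≤ L := by rw [hL]; exact Real.log_nonneg f1
  have hLx : L ≤ x := by
    rw [hL]; have := Real.log_le_sub_one_of_pos hx0; linarith
  obtain ⟨Q, hQ⟩ : ∃ Q : ℝ, Q = Real.sqrt (x ^ k) := ⟨_, rfl⟩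
  have hQ0 : 0 < Q := by rw [hQ]; positivity
  have hQs : Q ^ 2 = x ^ k := by rw [hQ]; exact Real.sq_sqrt hkp.le
  obtain ⟨S, hS⟩ : ∃ S : ℝ, S = Real.sqrt (x ^ (k + 1)) := ⟨_, rfl⟩
  have hS0 : 0 < S := by rw [hS]; positivity
  have hSs : S ^ 2 = x ^ (k + 1) := by rw [hS]; exact Real.sq_sqrt (by positivity)
  obtain ⟨l, hl⟩ : ∃ l : ℝ, l = Real.sqrt L := ⟨_, rfl⟩
  have hl0 : 0 ≤ l := by rw [hl]; positivity
  have hls : l ^ 2 = L := by rw [hl]; exact Real.sq_sqrt hL0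
  obtain ⟨y, hy⟩ : ∃ y : ℝ, y = x ^ (1 / 4 : ℝ) := ⟨_, rfl⟩
  rw [← hy] at f8 f9
  have hy1 : 1 ≤ y := by rw [hy]; exact Real.one_le_rpow f1 (by norm_num)
  have hy0 : 0 < y := by linarith
  have hy4 : y ^ 4 = x := by
    rw [hy, ← Real.rpow_natCast, ← Real.rpow_mul hx0.le]; norm_num
  have hlQ : l * Q ≤ S := by
    refine le_of_sq_le_sq ?_ hS0.le
    rw [mul_pow, hls, hQs, hSs, pow_succ, mul_comm]
    exact mul_le_mul_of_nonneg_left hLx hkp.le
  have hSy : S * y ^ 2 ≤ x ^ k := by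
    refine le_of_sq_le_sq ?_ hkp.le
    have e1 : (S * y ^ 2) ^ 2 = x ^ k * x ^ 2 := by
      rw [mul_pow, hSs, ← pow_mul, hy4]; ring
    rw [e1, sq (x ^ k)]
    exact mul_le_mul_of_nonneg_left hx2k hkp.le
  -- the deviation
  obtain ⟨e, he⟩ : ∃ e : ℝ, e = ep c k n := ⟨_, rfl⟩
  have he1 : e = c * (l / Q) := by
    rw [he, ep, ← hx, ← hL, Real.sqrt_div hL0, ← hl, ← hQ]
  have he0 : 0 ≤ e := by rw [he1]; positivity
  have he4 : e ≤ 1 / 4 := by
    refine le_of_sq_le_sq ?_ (by norm_num)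
    rw [he1, mul_pow, div_pow, hls, hQs]
    have e1 : L / x ^ k ≤ 1 / x := by
      rw [div_le_div_iff₀ hkp hx0, one_mul]
      calc L * x ≤ x * x := mul_le_mul_of_nonneg_right hLx hx0.le
        _ = x ^ 2 := (sq x).symm
        _ ≤ x ^ k := hx2k
    have e2 : c ^ 2 * (1 / x) ≤ 1 / 16 := by
      rw [mul_one_div, div_le_iff₀ hx0]; linarith
    have e3 : c ^ 2 * (L / x ^ k) ≤ c ^ 2 * (1 / x) :=
      mul_le_mul_of_nonneg_left e1 (by positivity)
    linarith
  rw [← he]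
  have heN : e * deg k n ≤ g / 2 * (l * Q) := by
    have e1 : e * deg k n ≤ e * (A * x ^ k) := mul_le_mul_of_nonneg_left d3 he0
    have e2 : e * (A * x ^ k) = g / 2 * (l * Q) := by
      rw [he1, ← hQs, hc]; field_simp
    linarith
  refine ⟨by linarith, ?_⟩
  -- the parameters of the union bound
  have hOc : ∀ v, ∀ w ∈ W v, a / 2 * x ^ k ≤ ((O v w).card : ℝ) ∧ ((O v w).card : ℝ) ≤ deg k n := by
    intro v w hw
    obtain ⟨q1, q2⟩ := hO v w hw
    have q3 := Finset.card_sdiff_add_card_eq_card q1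
    rw [d1 w] at q3
    have q4 : ((nb k w \ O v w).card : ℝ) + ((O v w).card : ℝ) = deg k n := by exact_mod_cast q3
    have q5 : a * x ^ k ≤ deg k n := le_trans (mul_le_mul_of_nonneg_right haa1 hkp.le) d2
    have q6 : B * x ^ (k - 1) ≤ a / 2 * x ^ k := by
      calc B * x ^ (k - 1) ≤ (a / 2 * x) * x ^ (k - 1) :=
            mul_le_mul_of_nonneg_right (by linarith) hk1.le
        _ = a / 2 * x ^ k := by rw [hkk]; ring
    have q7 : (0 : ℝ) ≤ ((nb k w \ O v w).card : ℝ) := by positivity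
    exact ⟨by linarith, by linarith⟩
  have hprob := prob h1 h2 (k := k) (n := n) (1 / 2 - e) e (C1 * S) (C2 * Q)
    (e * deg k n + C2 * Q) (a / 2 * x ^ k / y) (A * x ^ k) (B * x ^ (k - 1)) r W O rfl
    (by linarith) (by linarith) d1 hW (fun v w hw => (hO v w hw).1) hr
    (fun v x => hOr v x) (by positivity) d3 (by positivity) (fun v w hw => (hO v w hw).2)
    (by positivity) (by positivity) (by positivity) ?_ le_rfl ?_
  · have t1 : (C1 * S) ^ 2 / (2 * (A * x ^ k)) = 2 * x := by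
      rw [mul_pow, hC1s, hSs, pow_succ]; field_simp; ring
    have t2 : (C2 * Q) ^ 2 / (2 * (B * x ^ (k - 1))) = 2 * x := by
      rw [mul_pow, hC2s, hQs, hkk]; field_simp; ring
    have t3 : 2 * x ≤ a / 2 * x ^ k / y / (4 * r) := by
      have hr' : (0 : ℝ) < r := by exact_mod_cast hr
      rw [div_div, le_div_iff₀ (by positivity)]
      have g1 : 16 * r ≤ a * y := by
        rw [div_le_iff₀ ha] at f9; linarith
      have g2 : y ≤ y ^ 3 := le_self_pow₀ hy1 (by norm_num)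
      have g3 : x * y * (16 * r) ≤ a * x ^ 2 := by
        calc x * y * (16 * r) ≤ x * y * (a * y) := by gcongr
          _ ≤ x * y * (a * y ^ 3) := by gcongr
          _ = a * x * y ^ 4 := by ring
          _ = a * x ^ 2 := by rw [hy4]; ring
      have g4 : a * x ^ 2 ≤ a * x ^ k := by gcongr
      linarith
    rw [t1, t2] at hprob
    have u1 : (2 : ℝ) ^ n ≤ Real.exp x := by
      have : (2 : ℝ) ≤ Real.exp 1 := by have := Real.add_one_le_exp (1 : ℝ); linarith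
      calc (2 : ℝ) ^ n ≤ (Real.exp 1) ^ n := by gcongr
        _ = Real.exp x := by rw [← Real.exp_nat_mul, mul_one, hx]
    have u2 : (2 : ℝ) ^ n * Real.exp (-(2 * x)) ≤ Real.exp (-x) := by
      calc (2 : ℝ) ^ n * Real.exp (-(2 * x)) ≤ Real.exp x * Real.exp (-(2 * x)) := by gcongr
        _ = Real.exp (-x) := by rw [← Real.exp_add]; congr 1; ring
    have u3 : Real.exp (-(a / 2 * x ^ k / y / (4 * r))) ≤ Real.exp (-(2 * x)) :=
      Real.exp_le_exp.mpr (by linarith)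
    have u4 : (2 : ℝ) ^ n * Real.exp (-(a / 2 * x ^ k / y / (4 * r))) ≤ Real.exp (-x) :=
      le_trans (mul_le_mul_of_nonneg_left u3 (by positivity)) u2
    have u5 : (2 : ℝ) ^ n * (A * x ^ k * Real.exp (-(2 * x))) ≤ A * x ^ k * Real.exp (-x) := by
      calc (2 : ℝ) ^ n * (A * x ^ k * Real.exp (-(2 * x))) =
          A * x ^ k * ((2 : ℝ) ^ n * Real.exp (-(2 * x))) := by ring
        _ ≤ A * x ^ k * Real.exp (-x) := by gcongr
    have u6 : (2 + A * x ^ k) * Real.exp (-x) = Real.exp (-x) + (A * x ^ k * Real.exp (-x) +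
      Real.exp (-x)) := by ring
    rw [u6] at f10
    linarith
  · intro v
    have hδ : ∀ w ∈ W v, 1 / 2 * (1 / y) ≤ Pr (fun _ : Vx n => 1 / 2 - e) {ω | ω w ≠ true ∧
        e * deg k n + C2 * Q ≤ ∑ x ∈ O v w, (b ω x - (1 / 2 - e))} := by
      intro w hw
      obtain ⟨o1, o2⟩ := hOc v w hw
      have o3 : x ≤ a / 2 * x ^ k := by
        calc x ≤ 1 * x ^ (k - 1) := by rw [one_mul]; exact hx1k
          _ ≤ (a / 2 * x) * x ^ (k - 1) := mul_le_mul_of_nonneg_right (by linarith) hk1.le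
          _ = a / 2 * x ^ k := by rw [hkk]; ring
      have o4 : 0 < ((O v w).card : ℝ) := by linarith
      refine ev_prob (by linarith) w (O v w) (fun h => not_mem_nb w ((hO v w hw).1 h))
        (by positivity) ?_
      refine le_trans ?_ (H3 (Vx n) (1 / 2 - e) (by linarith) (by linarith) (O v w) ?_
        (e * deg k n + C2 * Q) ?_)
      · -- the power
        have p1 : ((O v w).card : ℝ) ≤ x ^ (k + 1) := by
          calc ((O v w).card : ℝ) ≤ A * x ^ k := by linarith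
            _ ≤ x * x ^ k := by gcongr
            _ = x ^ (k + 1) := by ring
        have p2 : (x ^ (k + 1)) ^ (-(1 / (4 * ((k : ℝ) + 1)))) ≤
            ((O v w).card : ℝ) ^ (-(1 / (4 * ((k : ℝ) + 1)))) :=
          Real.rpow_le_rpow_of_nonpos o4 p1 (by
            have : (0 : ℝ) < 1 / (4 * ((k : ℝ) + 1)) := by positivity
            linarith)
        have p3 : (x ^ (k + 1)) ^ (-(1 / (4 * ((k : ℝ) + 1)))) = 1 / y := by
          rw [← Real.rpow_natCast, ← Real.rpow_mul hx0.le]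
          have : ((k + 1 : ℕ) : ℝ) * -(1 / (4 * ((k : ℝ) + 1))) = -(1 / 4) := by
            push_cast; field_simp
          rw [this, Real.rpow_neg hx0.le, ← hy, one_div]
        rw [← p3]; exact p2
      · have : (M0 : ℝ) ≤ ((O v w).card : ℝ) := by
          have m1 : (M0 : ℝ) ≤ a / 2 * x ^ k := by
            have m2 : a / 2 * x ≤ a / 2 * x ^ k :=
              mul_le_mul_of_nonneg_left (le_self_pow₀ f1 (by omega)) (by linarith)
            linarith
          linarith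
        exact_mod_cast this
      · -- the deviation
        have w1 : C2 ≤ g / 2 * l := by
          have w2 : 2 * C2 / g ≤ l := by
            rw [hl]; exact Real.le_sqrt_of_sq_le f7
          rw [div_le_iff₀ hg0] at w2; linarith
        have w3 : e * deg k n + C2 * Q ≤ g * (l * Q) := by
          have : C2 * Q ≤ g / 2 * l * Q := by gcongr
          linarith
        have w4 : g * (l * Q) = a' * Real.sqrt (a / 2 * x ^ k * L) := by
          rw [hg, Real.sqrt_mul (by positivity), Real.sqrt_mul (by positivity), ← hQ, ← hl]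
          ring
        have w5 : Real.sqrt (a / 2 * x ^ k * L) ≤
            Real.sqrt (((O v w).card : ℝ) * Real.log ((O v w).card : ℝ)) := by
          apply Real.sqrt_le_sqrt
          have : L ≤ Real.log ((O v w).card : ℝ) := by
            rw [hL]; exact Real.log_le_log hx0 (by linarith)
          exact mul_le_mul o1 this hL0 o4.le
        have w6 := mul_le_mul_of_nonneg_left w5 ha'.le
        linarith
    have hs := Finset.card_nsmul_le_sum (W v) _ _ hδ
    rw [nsmul_eq_mul] at hs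
    refine le_trans ?_ hs
    have hs2 : a * x ^ k ≤ ((W v).card : ℝ) :=
      le_trans (mul_le_mul_of_nonneg_right haa2 hkp.le) (hWc v)
    calc a / 2 * x ^ k / y = a * x ^ k * (1 / 2 * (1 / y)) := by ring
      _ ≤ ((W v).card : ℝ) * (1 / 2 * (1 / y)) := by gcongr
  · -- the final comparison
    have v1 : g / 2 + C1 ≤ a / 8 * y := by
      rw [div_le_iff₀ ha] at f8; linarith
    have v2 : e * deg k n + C1 * S ≤ (g / 2 + C1) * S := by
      have v5 : g / 2 * (l * Q) ≤ g / 2 * S := mul_le_mul_of_nonneg_left hlQ (by linarith)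
      have v6 : (g / 2 + C1) * S = g / 2 * S + C1 * S := by ring
      linarith
    have v3 : (g / 2 + C1) * S ≤ a / 8 * y * S := by gcongr
    have v4 : a / 8 * y * S ≤ a / 2 * x ^ k / y / 4 := by
      rw [div_div, le_div_iff₀ (by positivity)]
      calc a / 8 * y * S * (y * 4) = a / 2 * (S * y ^ 2) := by ring
        _ ≤ a / 2 * x ^ k := by gcongr
    linarith

end Pool.Agent.R896.MB
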